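import Pool.Agent.Run7.h343.GV.Fst

/-!
The main terms of the first moment.
-/

set_option autoImplicit false

namespace Run7.h343.GV

open Complex Finset MeasureTheory
open Run7.h343.GI
open DirichletCharacter (changeLevel)

variable {p ν m d : ℕ} {ι : ℤ} {ϖ : GaussianInt}

/-- the units -/
def U4 : Finset GaussianInt := {1, -1, ⟨0, 1⟩, ⟨0, -1⟩}

lemma card_U4 : #U4 = 4 := by decide

lemma Nn_unit {u : GaussianInt} (hu : u ∈ U4) : Nn u = 1 := by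
  unfold U4 at hu
  rw [mem_insert, mem_insert, mem_insert, mem_singleton] at hu
  rcases hu with rfl | rfl | rfl | rfl <;> simp [Nn]

lemma Nn_one : Nn 1 = 1 := by simp [Nn]

lemma ne_zero_of_Nn {α : GaussianInt} (h : 0 < Nn α) : α ≠ 0 := by
  intro h0; rw [h0, Nn_zero] at h; exact lt_irrefl _ h

lemma sq_root (hfr : Fr p ν ι ϖ) (hmν : m ≤ ν) : ((ι : ℤ) : ZMod (p ^ m)) ^ 2 = -1 := by
  have h1 := (pow_dvd_pow (p : ℤ) hmν).trans hfr.root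
  have h2 : (((ι ^ 2 + 1 : ℤ)) : ZMod (p ^ m)) = 0 := by
    rw [ZMod.intCast_zmod_eq_zero_iff_dvd]
    push_cast
    exact h1
  push_cast at h2
  exact eq_neg_of_add_eq_zero_left h2

lemma red_unit4 (hfr : Fr p ν ι ϖ) (hmν : m ≤ ν) {u : GaussianInt} (hu : u ∈ U4) :
    ((red ι u : ℤ) : ZMod (p ^ m)) ^ 4 = 1 := by
  have h2 := sq_root hfr hmν
  have h4 : ((ι : ℤ) : ZMod (p ^ m)) ^ 4 = 1 := by
    have : ((ι : ℤ) : ZMod (p ^ m)) ^ 4 = (((ι : ℤ) : ZMod (p ^ m)) ^ 2) ^ 2 := by ring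
    rw [this, h2]; ring
  unfold U4 at hu
  rw [mem_insert, mem_insert, mem_insert, mem_singleton] at hu
  rcases hu with rfl | rfl | rfl | rfl
  · simp [red]
  · simp [red]
    ring
  · simp [red]
    exact h4
  · simp [red]
    have : (-((ι : ℤ) : ZMod (p ^ m))) ^ 4 = ((ι : ℤ) : ZMod (p ^ m)) ^ 4 := by ring
    rw [this]
    exact h4

lemma red_unit_d (hfr : Fr p ν ι ϖ) (hmν : m ≤ ν) (hd4 : 4 ∣ d) {u : GaussianInt} (hu : u ∈ U4) :
    ((red ι u : ℤ) : ZMod (p ^ m)) ^ d = 1 := by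
  obtain ⟨k, rfl⟩ := hd4
  rw [pow_mul, red_unit4 hfr hmν hu, one_pow]

lemma red_unit_mul (hfr : Fr p ν ι ϖ) (hmν : m ≤ ν) (hd4 : 4 ∣ d) {u : GaussianInt} (hu : u ∈ U4)
    (β : GaussianInt) : ((red ι (u * β) : ℤ) : ZMod (p ^ m)) ^ d = ((red ι β : ℤ) : ZMod (p ^ m)) ^ d := by
  rw [res_mul hfr hmν, mul_pow, red_unit_d hfr hmν hd4 hu, one_mul]

lemma chi_unit (hfr : Fr p ν ι ϖ) {χ : DirichletCharacter ℂ (p ^ ν)} (hι : χ ((ι : ℤ) : ZMod (p ^ ν)) = 1)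
    {u : GaussianInt} (hu : u ∈ U4) : χ ((red ι u : ℤ) : ZMod (p ^ ν)) = 1 := by
  have h2 := sq_root hfr (le_refl ν)
  have h1 : χ (-1) = 1 := by rw [← h2, map_pow, hι, one_pow]
  unfold U4 at hu
  rw [mem_insert, mem_insert, mem_insert, mem_singleton] at hu
  rcases hu with rfl | rfl | rfl | rfl
  · simp [red]
  · simp [red]
    exact h1
  · simp [red]
    exact hι
  · simp [red]
    rw [neg_eq_neg_one_mul, map_mul, h1, hι, one_mul]

lemma chi_unit_mul (hfr : Fr p ν ι ϖ) {χ : DirichletCharacter ℂ (p ^ ν)} (hι : χ ((ι : ℤ) : ZMod (p ^ ν)) = 1)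
    {u : GaussianInt} (hu : u ∈ U4) (β : GaussianInt) :
    χ ((red ι (u * β) : ℤ) : ZMod (p ^ ν)) = χ ((red ι β : ℤ) : ZMod (p ^ ν)) := by
  rw [res_mul hfr le_rfl, map_mul, chi_unit hfr hι hu, one_mul]

lemma gz_Nn (z : ℂ) (α : GaussianInt) : gz z α = cexp (-(Real.pi * z * ((Nn α : ℤ) : ℝ))) := by
  unfold gz Nn
  congr 1
  push_cast
  ring

/-- the small elements of a class -/
lemma cls_small (h : Fr p ν ι ϖ) (hmν : m ≤ ν) (hd : 1 ≤ d) {α β : GaussianInt} {R : ℝ} (hR0 : 0 < R)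
    (hR : 4 * R ^ d = (p : ℝ) ^ m) (hβR : ((Nn β : ℤ) : ℝ) < R)
    (hab : ((red ι α : ℤ) : ZMod (p ^ m)) ^ d = ((red ι β : ℤ) : ZMod (p ^ m)) ^ d) :
    α ^ d = β ^ d ∨ R ≤ Nn α := by
  by_cases hE : α ^ d = β ^ d
  · exact Or.inl hE
  · right
    rcases le_total (Nn β) (Nn α) with h1 | h1
    · exact far h hmν hd hab h1 hE hR0 hR
    · exact absurd (far h hmν hd hab.symm h1 (Ne.symm hE) hR0 hR) (not_le.2 hβR)

lemma term_le [NeZero (p ^ m)] (χ : DirichletCharacter ℂ (p ^ ν)) {b : ZMod (p ^ m)} {R : ℝ} {z : ℂ}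
    (hz : 0 < z.re) {α : GaussianInt}
    (hα : ((red ι α : ℤ) : ZMod (p ^ m)) ^ d = b → R ≤ Nn α) :
    ‖Fw χ (wd d b) (red ι α) * gz z α‖ ≤ tl p m d ι b R z.re α := by
  by_cases hc : ((red ι α : ℤ) : ZMod (p ^ m)) ^ d = b
  · have e : tl p m d ι b R z.re α = gw (1 / z.re) 0 α := by
      unfold tl
      rw [if_pos ⟨hc, hα hc⟩]
    rw [e]
    exact Tc_le χ ι d b hz α
  · have e : Fw χ (wd d b) (red ι α) = 0 := by
      unfold Fw wd
      rw [if_neg hc, mul_zero]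
    rw [e, zero_mul, norm_zero]
    exact tl_nonneg _ _ _ _

theorem Tc_small [NeZero (p ^ m)] (hfr : Fr p ν ι ϖ) (hmν : m ≤ ν) (hd : 1 ≤ d)
    (χ : DirichletCharacter ℂ (p ^ ν)) {b : ZMod (p ^ m)} (hb : IsUnit b) {R : ℝ} (hR : 0 ≤ R)
    (hcl : ∀ α : GaussianInt, ((red ι α : ℤ) : ZMod (p ^ m)) ^ d = b → R ≤ Nn α) {z : ℂ} (hz : 0 < z.re) :
    ‖Tc χ ι d b z‖ ≤ TB p m d R z.re := by
  have h1 := split_sum (Tc_summable χ ι d b hz) ∅ (tl_summable (ι := ι) (d := d) b R hz)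
    (fun α => tl_nonneg _ _ _ _) (fun α _ => term_le χ hz (hcl α))
  rw [sum_empty, sub_zero] at h1
  exact h1.trans (tail_le hfr hmν hd hb hR hz)

theorem Tc_main [NeZero (p ^ m)] (hfr : Fr p ν ι ϖ) (hmν : m ≤ ν) (hd : 1 ≤ d) (hd4 : 4 ∣ d)
    {χ : DirichletCharacter ℂ (p ^ ν)} (hι : χ ((ι : ℤ) : ZMod (p ^ ν)) = 1) {b : ZMod (p ^ m)} (hb : IsUnit b)
    {R R' : ℝ} (hR0 : 0 < R) (hR : 4 * R ^ d = (p : ℝ) ^ m) (hR' : 0 ≤ R') (hRR : R' ≤ R) {β : GaussianInt}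
    (hβ0 : β ≠ 0) (hβb : ((red ι β : ℤ) : ZMod (p ^ m)) ^ d = b) (hβR : ((Nn β : ℤ) : ℝ) < R) {z : ℂ}
    (hz : 0 < z.re) :
    ‖Tc χ ι d b z - 4 * χ ((red ι β : ℤ) : ZMod (p ^ ν)) * cexp (-(Real.pi * z * ((Nn β : ℤ) : ℝ)))‖ ≤
      TB p m d R' z.re := by
  classical
  obtain ⟨E, hE⟩ : ∃ E : Finset GaussianInt, E = U4.image (fun u => u * β) := ⟨_, rfl⟩
  have h1 := split_sum (Tc_summable χ ι d b hz) E (tl_summable (ι := ι) (d := d) b R' hz)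
    (fun α => tl_nonneg _ _ _ _) (fun α hα => term_le χ hz (fun hc => by
      rcases cls_small hfr hmν hd (α := α) (β := β) hR0 hR hβR (by rw [hc, hβb]) with h2 | h2
      · exfalso
        apply hα
        obtain ⟨u, hu, hu'⟩ := assoc_of_pow hd h2 hβ0
        rw [hE, mem_image]
        exact ⟨u, hu, hu'.symm⟩
      · exact hRR.trans h2))
  have h2 : ∑ α ∈ E, Fw χ (wd d b) (red ι α) * gz z α =
      4 * χ ((red ι β : ℤ) : ZMod (p ^ ν)) * cexp (-(Real.pi * z * ((Nn β : ℤ) : ℝ))) := by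
    rw [hE, sum_image (fun u _ v _ huv => mul_right_cancel₀ hβ0 huv)]
    have h3 : ∀ u ∈ U4, Fw χ (wd d b) (red ι (u * β)) * gz z (u * β) =
        χ ((red ι β : ℤ) : ZMod (p ^ ν)) * cexp (-(Real.pi * z * ((Nn β : ℤ) : ℝ))) := by
      intro u hu
      unfold Fw wd
      rw [if_pos (by rw [red_unit_mul hfr hmν hd4 hu, hβb]), chi_unit_mul hfr hι hu, gz_Nn, Nn_mul, Nn_unit hu,
        one_mul, mul_one]
    rw [sum_congr rfl h3, sum_const, card_U4, nsmul_eq_mul]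
    push_cast
    ring
  rw [h2] at h1
  exact h1.trans (tail_le hfr hmν hd hb hR' hz)

/-- the bound for the tail along a ray -/
lemma TB_le (hp : p.Prime) {R ρ x : ℝ} (hR : 0 ≤ R) (hρ : 0 < ρ) (hx : 0 < x) :
    TB p m d R (ρ * x) ≤ d * Real.exp (-(Real.pi * ρ * R / 2 * x)) + d * CG * (2 / (ρ * (p : ℝ) ^ m)) * x⁻¹ := by
  have hp0 : (0 : ℝ) < p := by exact_mod_cast hp.pos
  have hCG := CG_one
  unfold TB
  have e1 : -(Real.pi * (ρ * x) * R / 2) = -(Real.pi * ρ * R / 2 * x) := by ring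
  rw [e1]
  have h1 : Real.exp (-(Real.pi * ρ * R / 2 * x)) ≤ 1 := by
    apply Real.exp_le_one_iff.2
    have : 0 ≤ Real.pi * ρ * R / 2 * x := by positivity
    linarith
  have h2 : 0 ≤ d * CG * (2 / (ρ * (p : ℝ) ^ m)) * x⁻¹ := by positivity
  calc Real.exp (-(Real.pi * ρ * R / 2 * x)) * (d * (1 + CG * (2 / (ρ * x * (p : ℝ) ^ m)))) =
      d * Real.exp (-(Real.pi * ρ * R / 2 * x)) +
        Real.exp (-(Real.pi * ρ * R / 2 * x)) * (d * CG * (2 / (ρ * (p : ℝ) ^ m)) * x⁻¹) := by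
        field_simp
    _ ≤ _ := by
        have := mul_le_mul_of_nonneg_right h1 h2
        linarith

end Run7.h343.GV
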