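import Pool.Agent.Run7.h343.GV.Lm

/-!
The number of non-vanishing values.
-/

set_option autoImplicit false

namespace Run7.h343.GV

open Complex Finset
open Run7.h343.GI
open Pool.Agent.Y766.R3 (prim_mul)
open DirichletCharacter (changeLevel)

variable {p ν m d : ℕ} {ι : ℤ} {ϖ : GaussianInt}

lemma chars_cyclic [NeZero (p ^ m)] (hp : p.Prime) (hp2 : p ≠ 2) : IsCyclic (DirichletCharacter ℂ (p ^ m)) := by
  obtain ⟨e⟩ := MulChar.mulEquiv_units (ZMod (p ^ m)) ℂ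
  haveI : IsCyclic (ZMod (p ^ m))ˣ := ZMod.isCyclic_units_of_prime_pow p hp hp2 m
  exact isCyclic_of_surjective e.symm e.symm.surjective

lemma fiber_le {G : Type*} [Group G] [Fintype G] [DecidableEq G] [IsCyclic G] (hd : 1 ≤ d) (θ : G) :
    #((univ : Finset G).filter fun η => η ^ d = θ) ≤ d := by
  letI : CommGroup G := IsCyclic.commGroup
  rcases ((univ : Finset G).filter fun η => η ^ d = θ).eq_empty_or_nonempty with h0 | ⟨η0, h0⟩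
  · rw [h0]; simp
  have h0' := (mem_filter.1 h0).2
  refine le_trans ?_ (IsCyclic.card_pow_eq_one_le (α := G) (n := d) (by omega))
  refine card_le_card_of_injOn (fun η => η * η0⁻¹) ?_ ?_
  · intro η hη
    have hη' := (mem_filter.1 hη).2
    simp only [coe_filter, mem_univ, true_and, Set.mem_ofPred_eq]
    rw [mul_pow, inv_pow, hη', h0', mul_inv_cancel]
  · intro η _ η' _ h
    exact mul_right_cancel h

/-- Cauchy-Schwarz -/
lemma cs_count {G : Type*} [Group G] [Fintype G] [DecidableEq G] [IsCyclic G] (hd : 1 ≤ d) (v : G → ℝ)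
    (hv : ∀ θ, 0 ≤ v θ) {c : ℝ} (hc : 0 ≤ c) :
    ∑ η : G, v (η ^ d) ≤ c * Fintype.card G +
      d * Real.sqrt (#((univ.image fun η : G => η ^ d).filter fun θ => c ≤ v θ)) *
        Real.sqrt (∑ θ : G, v θ ^ 2) := by
  obtain ⟨Z, hZ⟩ : ∃ Z : Finset G, Z = (univ.image fun η : G => η ^ d).filter fun θ => c ≤ v θ := ⟨_, rfl⟩
  rw [← hZ]
  have h1 : ∀ η : G, v (η ^ d) ≤ c + if η ^ d ∈ Z then v (η ^ d) else 0 := by
    intro η
    split_ifs with h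
    · linarith
    · rw [add_zero]
      by_contra hcon
      push Not at hcon
      apply h
      rw [hZ, mem_filter, mem_image]
      exact ⟨⟨η, mem_univ _, rfl⟩, hcon.le⟩
  have h2 : ∑ η : G, (if η ^ d ∈ Z then v (η ^ d) else 0) ≤ d * ∑ θ ∈ Z, v θ := by
    have e1 : ∀ η : G, (if η ^ d ∈ Z then v (η ^ d) else 0) = ∑ θ ∈ Z, if η ^ d = θ then v θ else 0 := by
      intro η
      rw [sum_ite_eq]
    simp_rw [e1]
    rw [sum_comm, mul_sum]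
    refine sum_le_sum fun θ _ => ?_
    rw [← sum_filter, sum_const, nsmul_eq_mul]
    exact mul_le_mul_of_nonneg_right (by exact_mod_cast fiber_le hd θ) (hv θ)
  have h3 : ∑ θ ∈ Z, v θ ≤ Real.sqrt (#Z) * Real.sqrt (∑ θ : G, v θ ^ 2) := by
    have h4 : (∑ θ ∈ Z, v θ) ^ 2 ≤ #Z * ∑ θ ∈ Z, v θ ^ 2 := sq_sum_le_card_mul_sum_sq
    have h5 : ∑ θ ∈ Z, v θ ^ 2 ≤ ∑ θ : G, v θ ^ 2 :=
      sum_le_sum_of_subset_of_nonneg (subset_univ _) fun θ _ _ => by positivity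
    rw [← Real.sqrt_mul (Nat.cast_nonneg _)]
    apply Real.le_sqrt_of_sq_le
    exact h4.trans (by gcongr)
  calc ∑ η : G, v (η ^ d) ≤ ∑ η : G, (c + if η ^ d ∈ Z then v (η ^ d) else 0) := sum_le_sum fun η _ => h1 η
    _ = c * Fintype.card G + ∑ η : G, (if η ^ d ∈ Z then v (η ^ d) else 0) := by
        rw [sum_add_distrib, sum_const, nsmul_eq_mul, card_univ]; ring
    _ ≤ c * Fintype.card G + d * ∑ θ ∈ Z, v θ := by linarith
    _ ≤ c * Fintype.card G + d * (Real.sqrt (#Z) * Real.sqrt (∑ θ : G, v θ ^ 2)) := by gcongr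
    _ = _ := by ring

/-- the error is small -/
lemma Er_le {T R ρ C : ℝ} (hp : p.Prime) (hd : 1 ≤ d) (hmν : 2 * m ≤ ν) (hT : 1 ≤ T) (hρ : 0 < ρ)
    (hρT : 1 / (2 * T) ≤ ρ) (hC : 16384 * CG ≤ C) (hR : 16384 * d ^ 2 * T ≤ R)
    (hq : C * d * T * ((p : ℝ) ^ ν) ^ (1 / 4 : ℝ) ≤ (p : ℝ) ^ m) : Er p ν m d R ρ ≤ 1 / 2 := by
  have hp0 : (0 : ℝ) < p := by exact_mod_cast hp.pos
  have hp1 : (1 : ℝ) ≤ p := by exact_mod_cast hp.one_le
  have hCG := CG_one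
  have hd1 : (1 : ℝ) ≤ d := by exact_mod_cast hd
  obtain ⟨q, hqd⟩ : ∃ q : ℝ, q = (p : ℝ) ^ ν := ⟨_, rfl⟩
  have hq0 : 0 < q := by rw [hqd]; positivity
  obtain ⟨M, hM⟩ : ∃ M : ℝ, M = (p : ℝ) ^ m := ⟨_, rfl⟩
  have hM0 : 0 < M := by rw [hM]; positivity
  have hMq : M ^ 2 ≤ q := by
    rw [hM, hqd, ← pow_mul]
    exact pow_le_pow_right₀ hp1 (by omega)
  obtain ⟨y, hy⟩ : ∃ y : ℝ, y = q ^ (1 / 4 : ℝ) := ⟨_, rfl⟩
  have hy0 : 0 < y := by rw [hy]; positivity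
  have hyq : Real.sqrt q = y ^ 2 := by
    rw [Real.sqrt_eq_rpow, hy, ← Real.rpow_natCast, ← Real.rpow_mul hq0.le]
    norm_num
  have hMy : M ≤ y ^ 2 := by
    rw [← hyq]
    exact Real.le_sqrt_of_sq_le hMq
  rw [← hqd, ← hM, ← hy] at hq
  have hC0 : 16384 ≤ C := by nlinarith
  have hT0 : 0 < T := by linarith
  have hdT : 1 ≤ d * T := by nlinarith
  have hρ2 : 1 / ρ ≤ 2 * T := by
    rw [div_le_iff₀ hρ]
    rw [div_le_iff₀ (by positivity)] at hρT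
    linarith
  have hyC : C ≤ y := by
    have h1 : C * d * T * y ≤ y ^ 2 := hq.trans hMy
    have h2 : C * (d * T) ≤ y := by
      have : C * (d * T) * y ≤ y * y := by nlinarith
      exact le_of_mul_le_mul_right this hy0
    have h3 : C * 1 ≤ C * (d * T) := by gcongr
    linarith
  have hR0 : 0 < R := lt_of_lt_of_le (by positivity) hR
  have he := Real.exp_one_lt_d9
  have he0 := Real.exp_pos 1
  unfold Er
  rw [← hqd, ← hM, ← hy, hyq]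
  -- first term
  have t1 : Real.sqrt (Real.pi / (Real.pi * ρ * (R / 2) / 2)) ≤ 1 / (45 * d) := by
    have e1 : Real.pi / (Real.pi * ρ * (R / 2) / 2) = 4 * (1 / ρ) / R := by
      have := Real.pi_pos
      field_simp
      ring
    rw [e1]
    apply Real.sqrt_le_iff.2
    refine ⟨by positivity, ?_⟩
    rw [div_le_iff₀ hR0]
    have h1 : 4 * (1 / ρ) ≤ 8 * T := by linarith
    have h2 : (1 / (45 * d : ℝ)) ^ 2 * R ≥ (1 / (45 * d : ℝ)) ^ 2 * (16384 * d ^ 2 * T) := by gcongr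
    have h3 : (1 / (45 * d : ℝ)) ^ 2 * (16384 * d ^ 2 * T) = 16384 / 2025 * T := by field_simp; norm_num
    have h4 : 8 * T ≤ 16384 / 2025 * T := by
      have : (8 : ℝ) ≤ 16384 / 2025 := by norm_num
      gcongr
    linarith
  have t1' : 2 * (d * Real.sqrt (Real.pi / (Real.pi * ρ * (R / 2) / 2))) ≤ 2 / 45 := by
    have : (d : ℝ) * Real.sqrt (Real.pi / (Real.pi * ρ * (R / 2) / 2)) ≤ d * (1 / (45 * d)) := by gcongr
    have e : (d : ℝ) * (1 / (45 * d)) = 1 / 45 := by field_simp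
    rw [e] at this
    linarith
  have t2 : 4 * (d * CG * (2 / (ρ * M))) * y ≤ 1 / 1000 := by
    have h1 : 4 * (d * CG * (2 / (ρ * M))) * y = 8 * d * CG * (1 / ρ) * y / M := by field_simp; ring
    rw [h1, div_le_iff₀ hM0]
    have h2 : 8 * d * CG * (1 / ρ) * y ≤ 8 * d * CG * (2 * T) * y := by gcongr
    have h3 : 8 * d * CG * (2 * T) * y ≤ 1 / 1000 * (16384 * CG * d * T * y) := by
      have : 0 < CG * d * T * y := by positivity
      nlinarith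
    have h4 : 1 / 1000 * (16384 * CG * d * T * y) ≤ 1 / 1000 * (C * d * T * y) := by gcongr
    linarith
  have t3 : 4 * (4 / y ^ 2) * y ≤ 1 / 1000 := by
    have h1 : 4 * (4 / y ^ 2) * y = 16 / y := by field_simp; ring
    rw [h1, div_le_iff₀ hy0]
    linarith
  have hsum : 2 * (d * Real.sqrt (Real.pi / (Real.pi * ρ * (R / 2) / 2))) +
      4 * (d * CG * (2 / (ρ * M)) + 4 / y ^ 2) * y ≤ 1 / 10 := by
    have e : 4 * (d * CG * (2 / (ρ * M)) + 4 / y ^ 2) * y = 4 * (d * CG * (2 / (ρ * M))) * y + 4 * (4 / y ^ 2) * y := by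
      ring
    rw [e]
    linarith
  calc Real.exp 1 * _ ≤ Real.exp 1 * (1 / 10) := by gcongr
    _ ≤ 1 / 2 := by linarith

theorem thin_main {ε : ℝ} (hε : 0 < ε) : ∃ C : ℝ, 0 < C ∧ ∀ p : ℕ, p.Prime → 7 ≤ p →
    ∀ (d ν m : ℕ), 1 ≤ d → 4 ∣ d → 1 ≤ m → ∀ (hmν : 2 * m ≤ ν) (ι : ℤ), (p : ℤ) ^ ν ∣ ι ^ 2 + 1 →
    ∀ [NeZero (p ^ m)], ∀ χ : DirichletCharacter ℂ (p ^ ν), χ.IsPrimitive → χ ((ι : ℤ) : ZMod (p ^ ν)) = 1 →
    ∀ L : DirichletCharacter ℂ (p ^ m) → ℂ → ℂ, (∀ θ, Differentiable ℂ (L θ)) →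
    (∀ θ (s : ℂ), 1 < s.re → L θ s =
      Ds (χ * changeLevel (pow_dvd_pow p (by omega : m ≤ ν)) θ) ι s) → ∀ t : ℝ,
    (C * d ^ 2 * (1 + |t|)) ^ d ≤ (p : ℝ) ^ m → C * d * (1 + |t|) * ((p : ℝ) ^ ν) ^ (1 / 4 : ℝ) ≤ (p : ℝ) ^ m →
    ((p : ℝ) ^ m) ^ 2 ≤ C * (p : ℝ) ^ 5 * d ^ 2 * (1 + |t|) ^ 3 * ((p : ℝ) ^ ν) ^ ε *
      ((p : ℝ) ^ m + ((p : ℝ) ^ ν) ^ (19 / 58 : ℝ)) *
      {θ : DirichletCharacter ℂ (p ^ m) | (∃ η, θ = η ^ d) ∧ 1 / 4 ≤ ‖L θ (1 / 2 + t * I)‖}.ncard := by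
  classical
  obtain ⟨C0, hC0, hco⟩ := main_coset hε
  have hCG := CG_one
  obtain ⟨C, hC⟩ : ∃ C : ℝ, C = 64 * C0 + 65536 * CG := ⟨_, rfl⟩
  have hCp : 0 < C := by rw [hC]; positivity
  refine ⟨C, hCp, ?_⟩
  intro p hp hp7 d ν m hd hd4 hm hmν ι hι _ χ hχ hχι L hL hLs t hc1 hc2
  haveI : NeZero (p ^ ν) := ⟨pow_ne_zero _ hp.ne_zero⟩
  obtain ⟨ϖ, hfr⟩ := exists_fr hp (by omega) (by omega) hι
  have hmν' : m < ν := by omega
  have hp0 : (0 : ℝ) < p := by exact_mod_cast hp.pos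
  have hd1 : (1 : ℝ) ≤ d := by exact_mod_cast hd
  obtain ⟨T, hT⟩ : ∃ T : ℝ, T = 1 + |t| := ⟨_, rfl⟩
  have hT1 : 1 ≤ T := by rw [hT]; linarith [abs_nonneg t]
  obtain ⟨ω, hω1, hωre, hω2⟩ := ray t
  rw [← hT] at hωre hc1 hc2
  have hω : 0 < ω.re := lt_of_lt_of_le (by positivity) hωre
  -- the factor
  have hfac : ‖(Real.pi * ω : ℂ) ^ (1 / 2 + t * I : ℂ) * (Gamma (1 / 2 + t * I))⁻¹‖ ≤ Real.exp 1 := by
    have h2 := gamma_lower t
    have hE : 0 < Real.sqrt Real.pi * Real.exp (-(Real.pi * |t| / 2)) := by positivity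
    have hG : 0 < ‖Gamma (1 / 2 + t * I)‖ := lt_of_lt_of_le hE h2
    rw [norm_mul, norm_inv, ← div_eq_mul_inv, div_le_iff₀ hG]
    refine hω2.trans ?_
    gcongr
  -- the parameter `R`
  obtain ⟨R, hR⟩ : ∃ R : ℝ, R = ((p : ℝ) ^ m / 4) ^ (1 / d : ℝ) := ⟨_, rfl⟩
  have hRd : 4 * R ^ d = (p : ℝ) ^ m := by
    rw [hR, ← Real.rpow_natCast, ← Real.rpow_mul (by positivity)]
    have : (1 / d : ℝ) * d = 1 := by field_simp
    rw [this, Real.rpow_one]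
    ring
  have hR0 : 0 ≤ R := by rw [hR]; positivity
  have hRlow : 16384 * d ^ 2 * T ≤ R := by
    have h1 : (16384 * d ^ 2 * T) ^ d ≤ R ^ d := by
      have h2 : 4 * (16384 * d ^ 2 * T) ^ d ≤ (C * d ^ 2 * T) ^ d := by
        have h3 : (4 : ℝ) ≤ 4 ^ d := le_self_pow₀ (by norm_num) (by omega)
        calc 4 * (16384 * (d : ℝ) ^ 2 * T) ^ d ≤ 4 ^ d * (16384 * (d : ℝ) ^ 2 * T) ^ d := by gcongr
          _ = (65536 * (d : ℝ) ^ 2 * T) ^ d := by rw [← mul_pow]; ring_nf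
          _ ≤ (C * d ^ 2 * T) ^ d := by
              have : (65536 : ℝ) ≤ C := by rw [hC]; nlinarith
              gcongr
      linarith
    exact le_of_pow_le_pow_left₀ (by omega) hR0 h1
  have hR2 : 2 < R := by
    have : (1 : ℝ) ≤ d ^ 2 * T := by nlinarith [one_le_pow₀ (n := 2) hd1]
    nlinarith
  have hEr := Er_le (ν := ν) (m := m) (d := d) (T := T) (R := R) (ρ := ω.re) (C := C) hp hd hmν hT1 hω hωre
    (by rw [hC]; nlinarith) hRlow hc2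
  obtain ⟨b, hb, hlow⟩ := fm_low hfr hd hd4 hm hmν hχ hχι hR2 hRd hω hω1 hfac hEr
  -- to the given functions
  obtain ⟨v, hv⟩ : ∃ v : DirichletCharacter ℂ (p ^ m) → ℝ, v = fun θ => ‖L θ (1 / 2 + t * I)‖ := ⟨_, rfl⟩
  have hLe : ∀ η : DirichletCharacter ℂ (p ^ m),
      L (η ^ d) = Lr (XX (by omega) χ d η) ι ω := fun η =>
    L_eq hfr (by omega) (prim_mul hp hmν' hχ (η ^ d)) (hL _) (hLs _) hω hω1
  have h1 : ((p ^ m).totient : ℝ) / 2 ≤ ∑ η : DirichletCharacter ℂ (p ^ m), v (η ^ d) := by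
    refine hlow.trans ((norm_sum_le _ _).trans (sum_le_sum fun η _ => ?_))
    rw [norm_mul, hv]
    simp only
    rw [hLe]
    exact mul_le_of_le_one_left (norm_nonneg _) (η.norm_le_one _)
  haveI := chars_cyclic (m := m) hp (by omega)
  have h2 := cs_count (d := d) hd v (fun θ => by rw [hv]; exact norm_nonneg _) (c := 1 / 4) (by norm_num)
  have hcard : (Fintype.card (DirichletCharacter ℂ (p ^ m)) : ℝ) = ((p ^ m).totient : ℝ) := by
    rw [← Nat.card_eq_fintype_card, DirichletCharacter.card_eq_totient_of_hasEnoughRootsOfUnity]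
  rw [hcard] at h2
  obtain ⟨S, hS⟩ : ∃ S : Finset (DirichletCharacter ℂ (p ^ m)), S =
    (univ.image fun η : DirichletCharacter ℂ (p ^ m) => η ^ d).filter fun θ => 1 / 4 ≤ v θ := ⟨_, rfl⟩
  rw [← hS] at h2
  have hSn : {θ : DirichletCharacter ℂ (p ^ m) | (∃ η, θ = η ^ d) ∧ 1 / 4 ≤ ‖L θ (1 / 2 + t * I)‖}.ncard = #S := by
    rw [← Set.ncard_coe_finset]
    congr 1
    ext θ
    rw [hS, hv]
    simp only [Set.mem_ofPred_eq, coe_filter, mem_image, mem_univ, true_and]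
    constructor
    · rintro ⟨⟨η, h⟩, h'⟩
      exact ⟨⟨η, h.symm⟩, h'⟩
    · rintro ⟨⟨η, h⟩, h'⟩
      exact ⟨⟨η, h.symm⟩, h'⟩
  have h3 := hco p hp hp7 ν m hmν' ι hι χ hχ L hL hLs t
  rw [← hT] at h3
  obtain ⟨B, hB⟩ : ∃ B : ℝ, B = C0 * (p : ℝ) ^ 5 * T ^ 3 * ((p : ℝ) ^ ν) ^ ε *
        ((p : ℝ) ^ m + ((p : ℝ) ^ ν) ^ (19 / 58 : ℝ)) := ⟨_, rfl⟩
  have hB0 : 0 < B := by rw [hB]; positivity
  rw [← hB] at h3
  have h4 : ((p ^ m).totient : ℝ) / 4 ≤ d * Real.sqrt (#S) * Real.sqrt B := by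
    have h5 : Real.sqrt (∑ θ : DirichletCharacter ℂ (p ^ m), v θ ^ 2) ≤ Real.sqrt B := by
      apply Real.sqrt_le_sqrt
      rw [hv]
      exact h3
    have h6 : (d : ℝ) * Real.sqrt (#S) * Real.sqrt (∑ θ : DirichletCharacter ℂ (p ^ m), v θ ^ 2) ≤
        d * Real.sqrt (#S) * Real.sqrt B := by gcongr
    linarith
  have hφ : (p : ℝ) ^ m / 2 ≤ ((p ^ m).totient : ℝ) := by
    rw [Nat.totient_prime_pow hp (by omega)]
    push_cast
    rw [Nat.cast_sub hp.one_le]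
    have e : (p : ℝ) ^ m = (p : ℝ) ^ (m - 1) * p := by rw [← pow_succ]; congr 1; omega
    rw [e]
    have hp2 : (2 : ℝ) ≤ p := by exact_mod_cast hp.two_le
    have hpm : (0 : ℝ) < (p : ℝ) ^ (m - 1) := by positivity
    push_cast
    nlinarith
  have h7 : (p : ℝ) ^ m ≤ 8 * (d * Real.sqrt (#S) * Real.sqrt B) := by linarith
  rw [hSn]
  have hpm0 : (0 : ℝ) ≤ (p : ℝ) ^ m := by positivity
  calc ((p : ℝ) ^ m) ^ 2 ≤ (8 * (d * Real.sqrt (#S) * Real.sqrt B)) ^ 2 := by gcongr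
    _ = 64 * d ^ 2 * (Real.sqrt (#S)) ^ 2 * (Real.sqrt B) ^ 2 := by ring
    _ = 64 * d ^ 2 * (#S) * B := by rw [Real.sq_sqrt (Nat.cast_nonneg _), Real.sq_sqrt hB0.le]
    _ = 64 * C0 * (p : ℝ) ^ 5 * d ^ 2 * T ^ 3 * ((p : ℝ) ^ ν) ^ ε *
        ((p : ℝ) ^ m + ((p : ℝ) ^ ν) ^ (19 / 58 : ℝ)) * (#S) := by rw [hB]; ring
    _ ≤ _ := by
      rw [← hT]
      have : 64 * C0 ≤ C := by rw [hC]; nlinarith
      gcongr

end Run7.h343.GV
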