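import Pool.Agent.Run7.h343.GV.Mom

/-!
The first moment over a coset of a subgroup of characters.
-/

set_option autoImplicit false

namespace Run7.h343.GV

open Complex Finset MeasureTheory
open Run7.h343.GI
open Pool.Agent.Y766.R3 (FH prim_mul)
open DirichletCharacter (changeLevel)

variable {p ν m d : ℕ} {ι : ℤ} {ϖ : GaussianInt}

open scoped Classical in
/-- the indicator of a class of `d`-th powers -/
noncomputable def wd {M : ℕ} (d : ℕ) (b : ZMod M) (c : ZMod M) : ℂ := if c ^ d = b then 1 else 0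

lemma wd_le {M : ℕ} (d : ℕ) (b c : ZMod M) : ‖wd d b c‖ ≤ 1 := by
  unfold wd
  split_ifs <;> simp

/-- the twisted character -/
noncomputable abbrev XX (hmν : m ≤ ν) (χ : DirichletCharacter ℂ (p ^ ν)) (d : ℕ) (η : DirichletCharacter ℂ (p ^ m)) :
    DirichletCharacter ℂ (p ^ ν) := χ * changeLevel (pow_dvd_pow p hmν) (η ^ d)

lemma Fw_le (χ : DirichletCharacter ℂ (p ^ ν)) (b : ZMod (p ^ m)) (n : ℤ) : ‖Fw χ (wd d b) n‖ ≤ 1 := by
  unfold Fw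
  rw [norm_mul]
  exact mul_le_one₀ (χ.norm_le_one _) (norm_nonneg _) (wd_le _ _ _)

lemma Fw_per (hmν : m ≤ ν) (χ : DirichletCharacter ℂ (p ^ ν)) (w : ZMod (p ^ m) → ℂ) (n k : ℤ) :
    Fw χ w (n + (p ^ ν : ℕ) * k) = Fw χ w n := by
  unfold Fw
  have h1 : ((n + (p ^ ν : ℕ) * k : ℤ) : ZMod (p ^ ν)) = n := by
    push_cast
    have h0 : ((p ^ ν : ℕ) : ZMod (p ^ ν)) = 0 := ZMod.natCast_self _
    push_cast at h0
    rw [h0]; ring
  have h2 : ((n + (p ^ ν : ℕ) * k : ℤ) : ZMod (p ^ m)) = n := by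
    push_cast
    have h0 : ((p ^ ν : ℕ) : ZMod (p ^ m)) = 0 := (ZMod.natCast_eq_zero_iff _ _).2 (pow_dvd_pow p hmν)
    push_cast at h0
    rw [h0]; ring
  rw [h1, h2]

/-- expansion into characters -/
lemma expand [NeZero (p ^ m)] [NeZero (p ^ ν)] (hp : p.Prime) (hd : 1 ≤ d) (hν : 1 ≤ ν) (hmν : m ≤ ν)
    (χ : DirichletCharacter ℂ (p ^ ν)) {b : ZMod (p ^ m)} (hb : IsUnit b) (n : ℤ) :
    ∑ η : DirichletCharacter ℂ (p ^ m), η b⁻¹ * XX hmν χ d η (n : ZMod (p ^ ν)) =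
      ((p ^ m).totient : ℂ) * Fw χ (wd d b) n := by
  classical
  by_cases hn : IsUnit (n : ZMod (p ^ ν))
  · have hcop : IsCoprime n ((p ^ ν : ℕ) : ℤ) := by
      rw [ZMod.coe_int_isUnit_iff_isCoprime] at hn
      exact hn.symm
    have e1 : ∀ η : DirichletCharacter ℂ (p ^ m), η b⁻¹ * XX hmν χ d η (n : ZMod (p ^ ν)) =
        χ (n : ZMod (p ^ ν)) * (η b⁻¹ * η ((n : ZMod (p ^ m)) ^ d)) := by
      intro η
      unfold XX
      rw [MulChar.mul_apply, DirichletCharacter.changeLevel_eq_cast_of_dvd' _ _ hcop, MulChar.pow_apply' η (by omega),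
        map_pow]
      ring
    simp_rw [e1]
    rw [← mul_sum, DirichletCharacter.sum_char_inv_mul_char_eq ℂ hb]
    unfold Fw wd
    by_cases h : (n : ZMod (p ^ m)) ^ d = b
    · rw [if_pos h.symm, if_pos h]; ring
    · rw [if_neg (Ne.symm h), if_neg h]; ring
  · unfold Fw
    rw [MulChar.map_nonunit χ hn]
    simp only [zero_mul, mul_zero]
    refine sum_eq_zero fun η _ => ?_
    unfold XX
    rw [MulChar.mul_apply, MulChar.map_nonunit χ hn]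
    ring

lemma tot_pos (hp : p.Prime) : 0 < (p ^ m).totient := Nat.totient_pos.2 (pow_pos hp.pos m)

lemma FH_nonunit [NeZero (p ^ m)] [NeZero (p ^ ν)] (hp : p.Prime) (hd : 1 ≤ d) (hmν : m < ν)
    {χ : DirichletCharacter ℂ (p ^ ν)} (hχ : χ.IsPrimitive) {b : ZMod (p ^ m)} (hb : IsUnit b) {j : ℤ}
    (hj : ¬ IsUnit (j : ZMod (p ^ ν))) : FH (p ^ ν) (Fw χ (wd d b)) j = 0 := by
  have h1 : ((p ^ m).totient : ℂ) * FH (p ^ ν) (Fw χ (wd d b)) j =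
      ∑ η : DirichletCharacter ℂ (p ^ m), η b⁻¹ *
        FH (p ^ ν) (fun n => XX hmν.le χ d η (n : ZMod (p ^ ν))) j := by
    unfold FH
    simp_rw [mul_sum]
    rw [sum_comm]
    refine sum_congr rfl fun a _ => ?_
    have h2 := expand (m := m) hp hd (by omega) hmν.le χ hb (a : ℤ)
    rw [← mul_assoc, ← h2, sum_mul]
    refine sum_congr rfl fun η _ => ?_
    ring
  have h2 : ∑ η : DirichletCharacter ℂ (p ^ m), η b⁻¹ *
        FH (p ^ ν) (fun n => XX hmν.le χ d η (n : ZMod (p ^ ν))) j = 0 := by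
    refine sum_eq_zero fun η _ => ?_
    rw [FH_char (prim_mul hp hmν hχ (η ^ d)), MulChar.map_nonunit _ hj]
    ring
  rw [h2] at h1
  have h3 : ((p ^ m).totient : ℂ) ≠ 0 := by exact_mod_cast (tot_pos (m := m) hp).ne'
  exact (mul_eq_zero.1 h1).resolve_left h3

lemma grp_iff {G : Type*} [CommGroup G] (β v r c : G) (d : ℕ) :
    (β * (v * r)⁻¹) ^ d = c ↔ r ^ d = (β * v⁻¹) ^ d * c⁻¹ := by
  have h1 : (β * (v * r)⁻¹) ^ d = (β * v⁻¹) ^ d * (r ^ d)⁻¹ := by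
    rw [mul_inv, ← mul_assoc, mul_pow _ (r⁻¹), inv_pow]
  rw [h1]
  constructor
  · intro h
    rw [← h, mul_inv, inv_inv, mul_inv_cancel_left]
  · intro h
    rw [h, mul_inv, inv_inv, mul_inv_cancel_left]

/-- the theta series of a class -/
noncomputable def Tc (χ : DirichletCharacter ℂ (p ^ ν)) (ι : ℤ) (d : ℕ) (b : ZMod (p ^ m)) (z : ℂ) : ℂ :=
  ∑' α : GaussianInt, Fw χ (wd d b) (red ι α) * gz z α

lemma Tc_le (χ : DirichletCharacter ℂ (p ^ ν)) (ι : ℤ) (d : ℕ) (b : ZMod (p ^ m)) {z : ℂ} (hz : 0 < z.re)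
    (α : GaussianInt) : ‖Fw χ (wd d b) (red ι α) * gz z α‖ ≤ gw (1 / z.re) 0 α := by
  rw [norm_mul, gz_norm z hz]
  exact mul_le_of_le_one_left (gw_nonneg _ _ _) (Fw_le χ b _)

lemma Tc_summable (χ : DirichletCharacter ℂ (p ^ ν)) (ι : ℤ) (d : ℕ) (b : ZMod (p ^ m)) {z : ℂ} (hz : 0 < z.re) :
    Summable fun α : GaussianInt => Fw χ (wd d b) (red ι α) * gz z α :=
  Summable.of_norm_bounded (gw_summable (X := 1 / z.re) (by positivity) 0) fun α => Tc_le χ ι d b hz α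

/-- the sum over the characters -/
lemma sum_Th [NeZero (p ^ m)] [NeZero (p ^ ν)] (hp : p.Prime) (hd : 1 ≤ d) (hν : 1 ≤ ν) (hmν : m ≤ ν)
    (χ : DirichletCharacter ℂ (p ^ ν)) (ι : ℤ) {b : ZMod (p ^ m)} (hb : IsUnit b) {z : ℂ} (hz : 0 < z.re) :
    ∑ η : DirichletCharacter ℂ (p ^ m), η b⁻¹ * Th (XX hmν χ d η) ι z =
      ((p ^ m).totient : ℂ) * Tc χ ι d b z := by
  unfold Th Tc
  rw [← tsum_mul_left]
  simp_rw [← tsum_mul_left]
  rw [← Summable.tsum_finsetSum]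
  · refine tsum_congr fun α => ?_
    rw [← mul_assoc, ← expand hp hd hν hmν χ hb, sum_mul]
    refine sum_congr rfl fun η _ => ?_
    ring
  · intro η _
    exact ((Th_summable (XX hmν χ d η) ι z hz).of_norm).mul_left _

/-- **Poisson summation for the theta series of a class** -/
theorem Tc_fe [NeZero (p ^ m)] [NeZero (p ^ ν)] (hfr : Fr p ν ι ϖ) (hd : 1 ≤ d) (hm : 1 ≤ m) (hmν : 2 * m ≤ ν)
    {χ : DirichletCharacter ℂ (p ^ ν)} (hχ : χ.IsPrimitive) :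
    ∃ (ε : ℂ) (b0 : ZMod (p ^ m)), ‖ε‖ = 1 ∧ IsUnit b0 ∧ ∀ b : ZMod (p ^ m), IsUnit b → ∀ z : ℂ, 0 < z.re →
      Tc χ ι d b z = (ε / ((Real.sqrt ((p : ℝ) ^ ν) : ℂ) * z)) * Tc χ⁻¹ ι d (b0 * b⁻¹) (1 / (z * (p : ℂ) ^ ν)) := by
  classical
  have hp := hfr.pr
  have hν : 1 ≤ ν := by omega
  have hmν' : m ≤ ν := by omega
  have hp0 : (0 : ℝ) < p := by exact_mod_cast hp.pos
  obtain ⟨τ, hτ⟩ : ∃ τ, τ = gaussSum χ (ZMod.stdAddChar : AddChar (ZMod (p ^ ν)) ℂ) := ⟨_, rfl⟩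
  obtain ⟨u, hu⟩ : ∃ u : ZMod (p ^ ν), u = (2 : ZMod (p ^ ν))⁻¹ * ((red (-ι) (ϖ ^ ν) : ℤ) : ZMod (p ^ ν)) := ⟨_, rfl⟩
  have h2u : IsUnit (2 : ZMod (p ^ ν)) := by
    have := Pool.Agent.Y779.R3.unit_int (r := ν) hp hfr.two
    simpa using this
  have hiu : IsUnit ((2 : ZMod (p ^ ν))⁻¹) := Pool.Agent.Y924.R7.inv_unit h2u
  have hru : IsUnit ((red (-ι) (ϖ ^ ν) : ℤ) : ZMod (p ^ ν)) :=
    Pool.Agent.Y779.R3.unit_int (r := ν) hp (hfr.conj_ndvd_pow hν ν)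
  have huu : IsUnit u := by rw [hu]; exact hiu.mul hru
  have hRJ : ∀ h : GaussianInt, ((RJ ν ϖ h : ℤ) : ZMod (p ^ ν)) = u * ((red ι (star h) : ℤ) : ZMod (p ^ ν)) := by
    intro h
    apply h2u.mul_left_cancel
    have h22 : (2 : ZMod (p ^ ν)) * (2 : ZMod (p ^ ν))⁻¹ = 1 := ZMod.mul_inv_of_unit _ h2u
    have e1 : (2 : ZMod (p ^ ν)) * u = ((red (-ι) (ϖ ^ ν) : ℤ) : ZMod (p ^ ν)) := by
      rw [hu, ← mul_assoc, h22, one_mul]
    rw [← mul_assoc, e1]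
    have e2 : 2 * RJ ν ϖ h = red ι (ϖ ^ ν * h) + red (-ι) (ϖ ^ ν * h) := by
      unfold red RJ; ring
    have e3 : red ι (star h) = red (-ι) h := by unfold red; simp
    have e4 := hfr.conj.red_mul (ϖ ^ ν) h
    have e5 := hfr.dvd_red_mul le_rfl h
    have e6 : ((2 * RJ ν ϖ h : ℤ) : ZMod (p ^ ν)) = ((red (-ι) (ϖ ^ ν) * red (-ι) h : ℤ) : ZMod (p ^ ν)) := by
      rw [← sub_eq_zero, ← Int.cast_sub, ZMod.intCast_zmod_eq_zero_iff_dvd]
      have e7 : 2 * RJ ν ϖ h - red (-ι) (ϖ ^ ν) * red (-ι) h =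
          red ι (ϖ ^ ν * h) - (red (-ι) (ϖ ^ ν) * red (-ι) h - red (-ι) (ϖ ^ ν * h)) := by
        rw [e2]; ring
      rw [e7]
      push_cast
      exact dvd_sub e5 e4
    rw [e3]
    push_cast at e6
    exact e6
  have hκ : ‖χ⁻¹ u‖ = 1 := by
    obtain ⟨v, hv⟩ := huu
    rw [← hv]
    exact (χ⁻¹).unit_norm_eq_one v
  have hτn : ‖τ‖ = Real.sqrt ((p : ℝ) ^ ν) := by
    have h1 := Pool.Agent.Helper112.MLS.norm_gauss (p ^ ν) hχ
    rw [← hτ] at h1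
    have h2 : ((p ^ ν : ℕ) : ℝ) = (p : ℝ) ^ ν := by push_cast; rfl
    rw [h2] at h1
    rw [← h1, Real.sqrt_sq (norm_nonneg _)]
  have hs0 : 0 < Real.sqrt ((p : ℝ) ^ ν) := Real.sqrt_pos.2 (by positivity)
  have hsC : ((Real.sqrt ((p : ℝ) ^ ν) : ℝ) : ℂ) ≠ 0 := by exact_mod_cast hs0.ne'
  have hsq : ((Real.sqrt ((p : ℝ) ^ ν) : ℝ) : ℂ) ^ 2 = (p : ℂ) ^ ν := by
    have := Real.sq_sqrt (by positivity : (0 : ℝ) ≤ (p : ℝ) ^ ν)
    have h3 : (((Real.sqrt ((p : ℝ) ^ ν)) ^ 2 : ℝ) : ℂ) = (((p : ℝ) ^ ν : ℝ) : ℂ) := by rw [this]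
    push_cast at h3
    exact h3
  -- the localisation
  obtain ⟨β, hβ⟩ := loc1 hp hm hmν hχ
  rw [← hτ] at hβ
  obtain ⟨π, hπ⟩ : ∃ π : ZMod (p ^ ν) →+* ZMod (p ^ m), π = ZMod.castHom (pow_dvd_pow p hmν') (ZMod (p ^ m)) :=
    ⟨_, rfl⟩
  have hum : IsUnit (π u) := huu.map π
  obtain ⟨v, hv⟩ := hum
  obtain ⟨b0, hb0⟩ : ∃ b0 : ZMod (p ^ m), b0 = ((β * v⁻¹ : (ZMod (p ^ m))ˣ) : ZMod (p ^ m)) ^ d := ⟨_, rfl⟩
  have hb0u : IsUnit b0 := by rw [hb0]; exact (Units.isUnit _).pow d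
  have hint : ∀ n : ℤ, π (n : ZMod (p ^ ν)) = (n : ZMod (p ^ m)) := fun n => map_intCast π n
  -- the Fourier transform
  have hFH : ∀ b : ZMod (p ^ m), IsUnit b → ∀ h : GaussianInt,
      FH (p ^ ν) (Fw χ (wd d b)) (RJ ν ϖ h) = χ⁻¹ u * τ * Fw χ⁻¹ (wd d (b0 * b⁻¹)) (red ι (star h)) := by
    intro b hb h
    by_cases hj : IsUnit ((RJ ν ϖ h : ℤ) : ZMod (p ^ ν))
    · rw [FH_unit hmν' hβ _ _ hj, hRJ, map_mul]
      unfold Fw
      have hru' : IsUnit ((red ι (star h) : ℤ) : ZMod (p ^ ν)) := by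
        rw [hRJ] at hj
        exact isUnit_of_mul_isUnit_right hj
      have hrm : IsUnit ((red ι (star h) : ℤ) : ZMod (p ^ m)) := by
        have := hru'.map π
        rwa [hint] at this
      have hjm : ((RJ ν ϖ h : ℤ) : ZMod (p ^ m)) = v * ((red ι (star h) : ℤ) : ZMod (p ^ m)) := by
        rw [← hint, hRJ, map_mul, hint, hv]
      have hw : wd d b (β * ((RJ ν ϖ h : ℤ) : ZMod (p ^ m))⁻¹) =
          wd d (b0 * b⁻¹) ((red ι (star h) : ℤ) : ZMod (p ^ m)) := by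
        obtain ⟨r, hr⟩ := hrm
        obtain ⟨c, hc⟩ := hb
        have hinv : ((RJ ν ϖ h : ℤ) : ZMod (p ^ m))⁻¹ = ((v * r)⁻¹ : (ZMod (p ^ m))ˣ) := by
          apply ZMod.inv_eq_of_mul_eq_one
          rw [hjm, ← hr, ← Units.val_mul, ← Units.val_mul, mul_inv_cancel, Units.val_one]
        have hcinv : b⁻¹ = ((c⁻¹ : (ZMod (p ^ m))ˣ) : ZMod (p ^ m)) := by
          apply ZMod.inv_eq_of_mul_eq_one
          rw [← hc, ← Units.val_mul, mul_inv_cancel, Units.val_one]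
        unfold wd
        rw [hinv, hcinv, ← hr, ← hc, hb0]
        have hiff : ((β : ZMod (p ^ m)) * (((v * r)⁻¹ : (ZMod (p ^ m))ˣ) : ZMod (p ^ m))) ^ d = (c : ZMod (p ^ m)) ↔
            (r : ZMod (p ^ m)) ^ d = ((β * v⁻¹ : (ZMod (p ^ m))ˣ) : ZMod (p ^ m)) ^ d *
              ((c⁻¹ : (ZMod (p ^ m))ˣ) : ZMod (p ^ m)) := by
          rw [← Units.val_mul, ← Units.val_pow_eq_pow_val, ← Units.val_pow_eq_pow_val, ← Units.val_pow_eq_pow_val,
            ← Units.val_mul, Units.val_inj, Units.val_inj]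
          exact grp_iff β v r c d
        by_cases hh : (r : ZMod (p ^ m)) ^ d = ((β * v⁻¹ : (ZMod (p ^ m))ˣ) : ZMod (p ^ m)) ^ d *
              ((c⁻¹ : (ZMod (p ^ m))ˣ) : ZMod (p ^ m))
        · rw [if_pos (hiff.2 hh), if_pos hh]
        · rw [if_neg (fun h4 => hh (hiff.1 h4)), if_neg hh]
      rw [hw]
      ring
    · rw [FH_nonunit hp hd (by omega) hχ hb hj]
      have hrn : ¬ IsUnit ((red ι (star h) : ℤ) : ZMod (p ^ ν)) := by
        intro h3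
        apply hj
        rw [hRJ]
        exact huu.mul h3
      unfold Fw
      rw [MulChar.map_nonunit _ hrn]
      ring
  refine ⟨χ⁻¹ u * τ / (Real.sqrt ((p : ℝ) ^ ν) : ℂ), b0, ?_, hb0u, ?_⟩
  · rw [norm_div, norm_mul, hκ, one_mul, hτn, Complex.norm_real, Real.norm_of_nonneg hs0.le]
    exact div_self hs0.ne'
  · intro b hb z hz
    have hz0 : z ≠ 0 := by intro h; rw [h] at hz; simp at hz
    have hpois := poisZ hfr (F := Fw χ (wd d b)) (fun n k => Fw_per hmν' χ _ n k) (fun n => Fw_le χ b n) hz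
    unfold Tc
    rw [hpois]
    have e2 : ∑' h, FH (p ^ ν) (Fw χ (wd d b)) (RJ ν ϖ h) * gz (1 / (z * (p : ℂ) ^ ν)) h =
        χ⁻¹ u * τ * ∑' α, Fw χ⁻¹ (wd d (b0 * b⁻¹)) (red ι α) * gz (1 / (z * (p : ℂ) ^ ν)) α := by
      rw [← tsum_mul_left]
      have hstar : Function.Bijective (star : GaussianInt → GaussianInt) := star_involutive.bijective
      rw [← (Equiv.ofBijective star hstar).tsum_eq]
      refine tsum_congr fun h => ?_
      rw [hFH b hb, Equiv.ofBijective_apply, star_star]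
      have : gz (1 / (z * (p : ℂ) ^ ν)) (star h) = gz (1 / (z * (p : ℂ) ^ ν)) h := by
        unfold gz
        congr 1
        simp
      rw [this]
      ring
    rw [e2, ← hsq]
    field_simp

end Run7.h343.GV
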