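import Pool.Agent.Run7.h343.GV.Cls

/-!
The lower bound for the first moment.
-/

set_option autoImplicit false

namespace Run7.h343.GV

open Complex Finset MeasureTheory
open Run7.h343.GI
open Pool.Agent.Y766.R3 (prim_mul)
open DirichletCharacter (changeLevel)

variable {p ν m d : ℕ} {ι : ℤ} {ϖ : GaussianInt}

/-- the error in the first moment -/
noncomputable def Er (p ν m d : ℕ) (R ρ : ℝ) : ℝ :=
  Real.exp 1 * (2 * (d * Real.sqrt (Real.pi / (Real.pi * ρ * (R / 2) / 2))) +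
    4 * (d * CG * (2 / (ρ * (p : ℝ) ^ m)) + 4 / Real.sqrt ((p : ℝ) ^ ν)) * ((p : ℝ) ^ ν) ^ (1 / 4 : ℝ))

/-- the Mellin transform of the sum -/
lemma sum_Lr [NeZero (p ^ m)] [NeZero (p ^ ν)] (hfr : Fr p ν ι ϖ) (hd : 1 ≤ d) (hmν : m < ν)
    {χ : DirichletCharacter ℂ (p ^ ν)} (hχ : χ.IsPrimitive) {b : ZMod (p ^ m)} (hb : IsUnit b) {ω : ℂ}
    (hω : 0 < ω.re) (hω1 : ‖ω‖ = 1) (s : ℂ) :
    MellinConvergent (fun x : ℝ => Tc χ ι d b (ω * x)) s ∧
    ∑ η : DirichletCharacter ℂ (p ^ m), η b⁻¹ * Lr (XX hmν.le χ d η) ι ω s =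
      ((p ^ m).totient : ℂ) *
        ((Real.pi * ω) ^ s * (Gamma s)⁻¹ * mellin (fun x : ℝ => Tc χ ι d b (ω * x)) s) := by
  classical
  have hp := hfr.pr
  have hφ : ((p ^ m).totient : ℂ) ≠ 0 := by exact_mod_cast (tot_pos (m := m) hp).ne'
  have hconv : ∀ η : DirichletCharacter ℂ (p ^ m),
      MellinConvergent (fun x : ℝ => Th (XX hmν.le χ d η) ι (ω * x)) s :=
    fun η => mel_conv hfr (by omega) (prim_mul hp hmν hχ (η ^ d)) hω hω1 s
  have hpt : ∀ x ∈ Set.Ioi (0 : ℝ), (x : ℂ) ^ (s - 1) • Tc χ ι d b (ω * x) =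
      ((p ^ m).totient : ℂ)⁻¹ * ∑ η : DirichletCharacter ℂ (p ^ m), η b⁻¹ *
        ((x : ℂ) ^ (s - 1) • Th (XX hmν.le χ d η) ι (ω * x)) := by
    intro x hx
    have hx0 : (0 : ℝ) < x := hx
    have h1 := sum_Th hp hd (by omega) hmν.le χ ι hb (z := ω * x) (by rw [re_mul_ofReal]; positivity)
    simp only [smul_eq_mul]
    have h2 : ∑ η : DirichletCharacter ℂ (p ^ m), η b⁻¹ * ((x : ℂ) ^ (s - 1) * Th (XX hmν.le χ d η) ι (ω * x)) =
        (x : ℂ) ^ (s - 1) * (((p ^ m).totient : ℂ) * Tc χ ι d b (ω * x)) := by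
      rw [← h1, mul_sum]
      refine sum_congr rfl fun η _ => ?_
      ring
    rw [h2]
    field_simp
  have hint : Integrable (fun x : ℝ => ∑ η : DirichletCharacter ℂ (p ^ m), η b⁻¹ *
        ((x : ℂ) ^ (s - 1) • Th (XX hmν.le χ d η) ι (ω * x))) (volume.restrict (Set.Ioi 0)) :=
    integrable_finset_sum _ fun η _ => (hconv η).const_mul _
  have hG : MellinConvergent (fun x : ℝ => Tc χ ι d b (ω * x)) s := by
    unfold MellinConvergent
    exact IntegrableOn.congr_fun (hint.const_mul ((p ^ m).totient : ℂ)⁻¹) (fun x hx => (hpt x hx).symm)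
      measurableSet_Ioi
  refine ⟨hG, ?_⟩
  have h3 : mellin (fun x : ℝ => Tc χ ι d b (ω * x)) s = ((p ^ m).totient : ℂ)⁻¹ *
      ∑ η : DirichletCharacter ℂ (p ^ m), η b⁻¹ * mellin (fun x : ℝ => Th (XX hmν.le χ d η) ι (ω * x)) s := by
    unfold mellin
    rw [setIntegral_congr_fun measurableSet_Ioi hpt, integral_const_mul,
      integral_finset_sum _ fun η _ => (hconv η).const_mul _]
    congr 1
    refine sum_congr rfl fun η _ => ?_
    rw [integral_const_mul]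
  rw [h3]
  unfold Lr
  have h4 : ((p ^ m).totient : ℂ) * ((Real.pi * ω) ^ s * (Gamma s)⁻¹ * (((p ^ m).totient : ℂ)⁻¹ *
      ∑ η : DirichletCharacter ℂ (p ^ m), η b⁻¹ * mellin (fun x : ℝ => Th (XX hmν.le χ d η) ι (ω * x)) s)) =
      (Real.pi * ω) ^ s * (Gamma s)⁻¹ *
      ∑ η : DirichletCharacter ℂ (p ^ m), η b⁻¹ * mellin (fun x : ℝ => Th (XX hmν.le χ d η) ι (ω * x)) s := by
    field_simp
  rw [h4, mul_sum]
  refine sum_congr rfl fun η _ => ?_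
  ring

/-- the first moment for one class -/
theorem fm_one [NeZero (p ^ m)] [NeZero (p ^ ν)] (hfr : Fr p ν ι ϖ) (hd : 1 ≤ d) (hd4 : 4 ∣ d) (hm : 1 ≤ m)
    (hmν : 2 * m ≤ ν) {χ : DirichletCharacter ℂ (p ^ ν)} (hι : χ ((ι : ℤ) : ZMod (p ^ ν)) = 1)
    {ε : ℂ} {b0 : ZMod (p ^ m)} (hε : ‖ε‖ = 1) (hb0 : IsUnit b0)
    (hfe : ∀ b : ZMod (p ^ m), IsUnit b → ∀ z : ℂ, 0 < z.re →
      Tc χ ι d b z = (ε / ((Real.sqrt ((p : ℝ) ^ ν) : ℂ) * z)) * Tc χ⁻¹ ι d (b0 * b⁻¹) (1 / (z * (p : ℂ) ^ ν)))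
    {R : ℝ} (hR0 : 0 < R) (hR : 4 * R ^ d = (p : ℝ) ^ m) {t : ℝ} {ω : ℂ} (hω : 0 < ω.re) (hω1 : ‖ω‖ = 1)
    (hfac : ‖(Real.pi * ω : ℂ) ^ (1 / 2 + t * I : ℂ) * (Gamma (1 / 2 + t * I))⁻¹‖ ≤ Real.exp 1)
    {b : ZMod (p ^ m)} (hb : IsUnit b) (hG : MellinConvergent (fun x : ℝ => Tc χ ι d b (ω * x)) (1 / 2 + t * I))
    {α : GaussianInt} (hα : 0 < Nn α) (hαR : ((Nn α : ℤ) : ℝ) < R)
    (hαb : ((red ι α : ℤ) : ZMod (p ^ m)) ^ d = b) (hαu : ‖χ ((red ι α : ℤ) : ZMod (p ^ ν))‖ = 1)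
    {c0 : ℂ} {N0 : ℝ} (hc0 : ‖c0‖ ≤ 1) (hN0 : 0 < N0)
    (hdual : ∀ z : ℂ, 0 < z.re → ‖Tc χ⁻¹ ι d (b0 * b⁻¹) z - 4 * c0 * cexp (-(Real.pi * z * N0))‖ ≤
      TB p m d (R / 2) z.re) :
    4 / Real.sqrt (Nn α : ℤ) - 4 * ‖c0‖ / Real.sqrt N0 ≤
      ‖(Real.pi * ω : ℂ) ^ (1 / 2 + t * I : ℂ) * (Gamma (1 / 2 + t * I))⁻¹ *
        mellin (fun x : ℝ => Tc χ ι d b (ω * x)) (1 / 2 + t * I)‖ + Er p ν m d R ω.re := by
  have hp := hfr.pr
  have hp0 : (0 : ℝ) < p := by exact_mod_cast hp.pos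
  have hCG := CG_one
  obtain ⟨q, hq⟩ : ∃ q : ℝ, q = (p : ℝ) ^ ν := ⟨_, rfl⟩
  have hq0 : 0 < q := by rw [hq]; positivity
  have hsq : 0 < Real.sqrt q := Real.sqrt_pos.2 hq0
  have hNα : (0 : ℝ) < ((Nn α : ℤ) : ℝ) := by exact_mod_cast hα
  unfold Er
  rw [← hq] at hfe ⊢
  have hinv := conj_eq_inv hω1
  have hω0 : ω ≠ 0 := by intro h; rw [h] at hω; simp at hω
  refine fm_core (a := Real.pi * ω.re * (R / 2) / 2) (d := (d : ℝ)) (K := d * CG * (2 / (ω.re * (p : ℝ) ^ m)))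
    hω hω1 hfac hG hq0 (by positivity) (by positivity) (by positivity) hNα hN0 hαu hc0 hε ?_ ?_
  · intro x hx
    have hre : (ω * x : ℂ).re = ω.re * x := by rw [re_mul_ofReal]
    have h1 := Tc_main (R' := R / 2) hfr (by omega) hd hd4 hι hb hR0 hR (by positivity) (by linarith)
      (ne_zero_of_Nn hα) hαb hαR (z := ω * x) (by rw [hre]; positivity)
    rw [hre] at h1
    have h2 := TB_le (m := m) (d := d) hp (R := R / 2) (ρ := ω.re) (x := x) (by positivity) hω hx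
    have e1 : (Real.pi * ω * ((Nn α : ℤ) : ℝ) * x : ℂ) = Real.pi * (ω * x) * ((Nn α : ℤ) : ℝ) := by ring
    rw [e1]
    exact h1.trans h2
  · intro x hx
    have hre : (ω * x : ℂ).re = ω.re * x := by rw [re_mul_ofReal]
    have hxc : (x : ℂ) ≠ 0 := by exact_mod_cast hx.ne'
    have hqc : (q : ℂ) ≠ 0 := by exact_mod_cast hq0.ne'
    have hqp : (p : ℂ) ^ ν = (q : ℂ) := by rw [hq]; push_cast; rfl
    have hz : (1 / (ω * x * (p : ℂ) ^ ν)) = starRingEnd ℂ ω * ((1 / (q * x) : ℝ) : ℂ) := by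
      rw [hinv, hqp]
      push_cast
      field_simp
    have hzre : (1 / (ω * x * (p : ℂ) ^ ν)).re = ω.re * (1 / (q * x)) := by
      rw [hz, re_mul_ofReal, conj_re]
    have hzre0 : 0 < (1 / (ω * x * (p : ℂ) ^ ν)).re := by rw [hzre]; positivity
    have h1 := hdual _ hzre0
    rw [hzre] at h1
    have h2 := TB_le (m := m) (d := d) hp (R := R / 2) (ρ := ω.re) (x := 1 / (q * x)) (by positivity) hω
      (by positivity)
    have h3 := h1.trans h2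
    rw [hfe b hb (ω * x) (by rw [hre]; positivity)]
    have e1 : (Real.pi * (1 / (ω * x * (p : ℂ) ^ ν)) * N0 : ℂ) =
        Real.pi * starRingEnd ℂ ω * N0 / q * ((x⁻¹ : ℝ) : ℂ) := by
      rw [hz]
      push_cast
      field_simp
    rw [e1] at h3
    have e2 : ε / ((Real.sqrt q : ℂ) * (ω * x)) * Tc χ⁻¹ ι d (b0 * b⁻¹) (1 / (ω * x * (p : ℂ) ^ ν)) -
        ε / ((Real.sqrt q : ℂ) * ω * x) *
          (4 * c0 * cexp (-(Real.pi * starRingEnd ℂ ω * N0 / q * ((x⁻¹ : ℝ) : ℂ)))) =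
        ε / ((Real.sqrt q : ℂ) * ω * x) * (Tc χ⁻¹ ι d (b0 * b⁻¹) (1 / (ω * x * (p : ℂ) ^ ν)) -
          4 * c0 * cexp (-(Real.pi * starRingEnd ℂ ω * N0 / q * ((x⁻¹ : ℝ) : ℂ)))) := by
      rw [← mul_assoc (Real.sqrt q : ℂ) ω (x : ℂ)]; ring
    rw [e2, norm_mul]
    have e3 : ‖ε / ((Real.sqrt q : ℂ) * ω * x)‖ = 1 / (Real.sqrt q * x) := by
      rw [norm_div, norm_mul, norm_mul, hε, hω1, Complex.norm_real, Complex.norm_real, Real.norm_of_nonneg hx.le,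
        Real.norm_of_nonneg hsq.le, mul_one]
    rw [e3]
    refine mul_le_mul_of_nonneg_left (h3.trans (le_of_eq ?_)) (by positivity)
    have e4 : Real.pi * ω.re * (R / 2) / 2 * (1 / (q * x)) = Real.pi * ω.re * (R / 2) / 2 / q * x⁻¹ := by
      field_simp
    have e5 : (1 / (q * x))⁻¹ = q * x := by rw [one_div, inv_inv]
    rw [e4, e5]

/-- **The first moment**: it is not small for one of two classes. -/
theorem fm_low [NeZero (p ^ m)] [NeZero (p ^ ν)] (hfr : Fr p ν ι ϖ) (hd : 1 ≤ d) (hd4 : 4 ∣ d) (hm : 1 ≤ m)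
    (hmν : 2 * m ≤ ν) {χ : DirichletCharacter ℂ (p ^ ν)} (hχ : χ.IsPrimitive)
    (hι : χ ((ι : ℤ) : ZMod (p ^ ν)) = 1) {R : ℝ} (hR2 : 2 < R) (hR : 4 * R ^ d = (p : ℝ) ^ m) {t : ℝ} {ω : ℂ}
    (hω : 0 < ω.re) (hω1 : ‖ω‖ = 1)
    (hfac : ‖(Real.pi * ω : ℂ) ^ (1 / 2 + t * I : ℂ) * (Gamma (1 / 2 + t * I))⁻¹‖ ≤ Real.exp 1)
    (hEr : Er p ν m d R ω.re ≤ 1 / 2) :
    ∃ b : ZMod (p ^ m), IsUnit b ∧ ((p ^ m).totient : ℝ) / 2 ≤
      ‖∑ η : DirichletCharacter ℂ (p ^ m), η b⁻¹ * Lr (XX (by omega) χ d η) ι ω (1 / 2 + t * I)‖ := by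
  classical
  have hp := hfr.pr
  have hR0 : 0 < R := by linarith
  have hmν' : m < ν := by omega
  obtain ⟨ε, b0, hε, hb0, hfe⟩ := Tc_fe hfr hd hm hmν hχ
  -- it suffices to bound the Mellin transform
  have hred : ∀ b : ZMod (p ^ m), IsUnit b →
      1 / 2 ≤ ‖(Real.pi * ω : ℂ) ^ (1 / 2 + t * I : ℂ) * (Gamma (1 / 2 + t * I))⁻¹ *
        mellin (fun x : ℝ => Tc χ ι d b (ω * x)) (1 / 2 + t * I)‖ →
      ∃ b : ZMod (p ^ m), IsUnit b ∧ ((p ^ m).totient : ℝ) / 2 ≤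
      ‖∑ η : DirichletCharacter ℂ (p ^ m), η b⁻¹ * Lr (XX (by omega) χ d η) ι ω (1 / 2 + t * I)‖ := by
    intro b hb h
    refine ⟨b, hb, ?_⟩
    rw [(sum_Lr hfr hd hmν' hχ hb hω hω1 _).2, norm_mul, Complex.norm_natCast]
    have : (0 : ℝ) ≤ ((p ^ m).totient : ℝ) := Nat.cast_nonneg _
    calc ((p ^ m).totient : ℝ) / 2 = ((p ^ m).totient : ℝ) * (1 / 2) := by ring
      _ ≤ _ := mul_le_mul_of_nonneg_left h this
  have hχι : χ⁻¹ ((ι : ℤ) : ZMod (p ^ ν)) = 1 := by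
    have h1 : ((ι : ℤ) : ZMod (p ^ ν)) * (-((ι : ℤ) : ZMod (p ^ ν))) = 1 := by
      have := sq_root hfr (le_refl ν)
      linear_combination -this
    have hu : IsUnit ((ι : ℤ) : ZMod (p ^ ν)) := IsUnit.of_mul_eq_one _ h1
    have h2 : (χ⁻¹ * χ) ((ι : ℤ) : ZMod (p ^ ν)) = 1 := by
      rw [inv_mul_cancel, MulChar.one_apply hu]
    rw [MulChar.mul_apply, hι, mul_one] at h2
    exact h2
  have hsq2 : (1.4 : ℝ) ≤ Real.sqrt 2 := by
    rw [show (1.4 : ℝ) = Real.sqrt (1.4 ^ 2) by rw [Real.sqrt_sq (by norm_num)]]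
    exact Real.sqrt_le_sqrt (by norm_num)
  -- the class of `1`
  have h1b : IsUnit (1 : ZMod (p ^ m)) := isUnit_one
  have hred1 : ((red ι 1 : ℤ) : ZMod (p ^ m)) ^ d = 1 := by simp [red]
  have hN1 : Nn 1 = 1 := Nn_one
  have hN1R : ((Nn 1 : ℤ) : ℝ) < R := by rw [hN1]; push_cast; linarith
  have hχ1 : ‖χ ((red ι 1 : ℤ) : ZMod (p ^ ν))‖ = 1 := by simp [red]
  have hsqN1 : Real.sqrt ((Nn 1 : ℤ) : ℝ) = 1 := by rw [hN1]; simp
  by_cases hA : ∀ α : GaussianInt, ((red ι α : ℤ) : ZMod (p ^ m)) ^ d = b0 * 1⁻¹ → R / 2 ≤ Nn α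
  · -- no dual main term
    apply hred 1 h1b
    have h2 := fm_one (c0 := 0) (N0 := 1) hfr hd hd4 hm hmν hι hε hb0 hfe hR0 hR hω hω1 hfac h1b
      (sum_Lr hfr hd hmν' hχ h1b hω hω1 _).1 (by rw [hN1]; norm_num) hN1R hred1 hχ1 (by simp) one_pos (by
        intro z hz
        rw [mul_zero, zero_mul, sub_zero]
        have hbu : IsUnit (b0 * (1 : ZMod (p ^ m))⁻¹) := by
          have : (1 : ZMod (p ^ m))⁻¹ = 1 := ZMod.inv_eq_of_mul_eq_one _ _ _ (by ring)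
          rw [this, mul_one]; exact hb0
        exact Tc_small hfr hmν'.le hd χ⁻¹ hbu (by positivity) hA hz)
    rw [hsqN1] at h2
    simp only [norm_zero, mul_zero, zero_div, sub_zero, div_one] at h2
    linarith
  · push Not at hA
    obtain ⟨β, hβb, hβR⟩ := hA
    have h11 : (1 : ZMod (p ^ m))⁻¹ = 1 := ZMod.inv_eq_of_mul_eq_one _ _ _ (by ring)
    rw [h11, mul_one] at hβb
    have hβ0 : β ≠ 0 := by
      intro h0
      rw [h0, red_zero, Int.cast_zero, zero_pow (by omega)] at hβb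
      haveI : Nontrivial (ZMod (p ^ m)) := by
        haveI : Fact (1 < p ^ m) := ⟨Nat.one_lt_pow (by omega) hp.one_lt⟩
        infer_instance
      rw [← hβb] at hb0
      exact not_isUnit_zero hb0
    have hNβ := one_le_Nn hβ0
    rcases eq_or_lt_of_le hNβ with hN | hN
    · -- the dual class contains a unit: use `1 + i`
      have hβU : β ∈ U4 := unit4 hN.symm
      have hb01 : b0 = 1 := by rw [← hβb]; exact red_unit_d hfr hmν'.le hd4 hβU
      obtain ⟨α, hα⟩ : ∃ α : GaussianInt, α = ⟨1, 1⟩ := ⟨_, rfl⟩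
      have hNα : Nn α = 2 := by rw [hα]; simp [Nn]
      obtain ⟨b, hb⟩ : ∃ b : ZMod (p ^ m), b = ((red ι α : ℤ) : ZMod (p ^ m)) ^ d := ⟨_, rfl⟩
      have hunit : ∀ k : ℕ, k ≤ ν → IsUnit ((red ι α : ℤ) : ZMod (p ^ k)) := by
        intro k hk
        have h2u : IsUnit (2 : ZMod (p ^ k)) := by
          have := Pool.Agent.Y779.R3.unit_int (r := k) hp hfr.two
          simpa using this
        have h3 : ((red ι α : ℤ) : ZMod (p ^ k)) * (1 - ((ι : ℤ) : ZMod (p ^ k))) = 2 := by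
          have h4 := sq_root hfr hk
          rw [hα]
          unfold red
          push_cast
          linear_combination -h4
        rw [← h3] at h2u
        exact isUnit_of_mul_isUnit_left h2u
      have hbu : IsUnit b := by rw [hb]; exact (hunit m hmν'.le).pow d
      have hχα : ‖χ ((red ι α : ℤ) : ZMod (p ^ ν))‖ = 1 := by
        obtain ⟨v, hv⟩ := hunit ν le_rfl
        rw [← hv]
        exact χ.unit_norm_eq_one v
      apply hred b hbu
      have h2 := fm_one (c0 := 0) (N0 := 1) hfr hd hd4 hm hmν hι hε hb0 hfe hR0 hR hω hω1 hfac hbu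
        (sum_Lr hfr hd hmν' hχ hbu hω hω1 _).1 (by rw [hNα]; norm_num) (by rw [hNα]; push_cast; exact hR2) hb.symm
        hχα (by simp) one_pos (by
          intro z hz
          rw [mul_zero, zero_mul, sub_zero]
          have hinvb : b⁻¹ * b = 1 := by
            obtain ⟨v, hv⟩ := hbu
            have : b⁻¹ = ((v⁻¹ : (ZMod (p ^ m))ˣ) : ZMod (p ^ m)) := by
              apply ZMod.inv_eq_of_mul_eq_one
              rw [← hv, ← Units.val_mul, mul_inv_cancel, Units.val_one]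
            rw [this, ← hv, ← Units.val_mul, inv_mul_cancel, Units.val_one]
          have hbu' : IsUnit (b0 * b⁻¹) := by
            rw [hb01, one_mul]
            exact IsUnit.of_mul_eq_one b hinvb
          refine Tc_small hfr hmν'.le hd χ⁻¹ hbu' (by positivity) ?_ hz
          intro γ hγ
          rw [hb01, one_mul] at hγ
          have h3 : ((red ι (γ * α) : ℤ) : ZMod (p ^ m)) ^ d = ((red ι 1 : ℤ) : ZMod (p ^ m)) ^ d := by
            rw [res_mul hfr hmν'.le, mul_pow, hγ, ← hb, hinvb, hred1]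
          have h5 : ((Nn (γ * α) : ℤ) : ℝ) = 2 * ((Nn γ : ℤ) : ℝ) := by
            rw [Nn_mul, hNα]; push_cast; ring
          rcases cls_small hfr hmν'.le hd hR0 hR hN1R h3 with h4 | h4
          · exfalso
            have h6 := norm_eq_of_pow hd h4
            rw [Nn_mul, hNα, hN1] at h6
            omega
          · rw [h5] at h4
            linarith)
      have e2 : Real.sqrt ((Nn α : ℤ) : ℝ) ≤ 2 := by
        rw [hNα]
        push_cast
        rw [Real.sqrt_le_left (by norm_num)]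
        norm_num
      have e3 : 2 ≤ 4 / Real.sqrt ((Nn α : ℤ) : ℝ) := by
        have hpos : 0 < Real.sqrt ((Nn α : ℤ) : ℝ) := by rw [hNα]; positivity
        rw [le_div_iff₀ hpos]
        linarith
      simp only [norm_zero, mul_zero, zero_div, sub_zero] at h2
      linarith
    · -- the dual main term is smaller
      apply hred 1 h1b
      have h2 := fm_one (c0 := χ⁻¹ ((red ι β : ℤ) : ZMod (p ^ ν))) (N0 := ((Nn β : ℤ) : ℝ)) hfr hd hd4 hm hmν hι hε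
        hb0 hfe hR0 hR hω hω1 hfac h1b
        (sum_Lr hfr hd hmν' hχ h1b hω hω1 _).1 (by rw [hN1]; norm_num) hN1R hred1 hχ1 (χ⁻¹.norm_le_one _)
        (by exact_mod_cast (by omega : 0 < Nn β)) (by
          intro z hz
          rw [h11, mul_one]
          exact Tc_main hfr hmν'.le hd hd4 hχι hb0 hR0 hR (by positivity) (by linarith) hβ0 hβb
            (by linarith) hz)
      rw [hsqN1] at h2
      have h3 : ‖χ⁻¹ ((red ι β : ℤ) : ZMod (p ^ ν))‖ ≤ 1 := χ⁻¹.norm_le_one _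
      have h4 : Real.sqrt 2 ≤ Real.sqrt ((Nn β : ℤ) : ℝ) :=
        Real.sqrt_le_sqrt (by exact_mod_cast (by omega : (2 : ℤ) ≤ Nn β))
      have h5 : 4 * ‖χ⁻¹ ((red ι β : ℤ) : ZMod (p ^ ν))‖ / Real.sqrt ((Nn β : ℤ) : ℝ) ≤ 3 := by
        rw [div_le_iff₀ (by linarith)]
        nlinarith
      linarith

end Run7.h343.GV
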