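import Pool.Agent.Run7.h343.GI.Fin

/-!
Localisation of Gauss sums of characters modulo prime powers.
-/

set_option autoImplicit false

namespace Run7.h343.GV

open Complex Finset
open Run7.h343.GI
open Pool.Agent.H442R2
open Pool.Agent.Y766.R3 (FH prim_mul)
open Pool.Agent.Y779.R3 (pi_zero oneU oneU_val)

variable {p ν m : ℕ}

lemma ker_mul [NeZero (p ^ ν)] (hmν : m ≤ ν) {x : ZMod (p ^ ν)}
    (hx : ZMod.castHom (pow_dvd_pow p hmν) (ZMod (p ^ m)) x = 0) : (p : ZMod (p ^ ν)) ^ (ν - m) * x = 0 := by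
  have h1 : ((x.val : ℕ) : ZMod (p ^ ν)) = x := ZMod.natCast_zmod_val x
  rw [← h1, map_natCast, ZMod.natCast_eq_zero_iff] at hx
  obtain ⟨k, hk⟩ := hx
  rw [← h1, hk]
  push_cast
  rw [← mul_assoc, ← pow_add, Nat.sub_add_cancel hmν, pi_zero le_rfl, zero_mul]

lemma mul_ker [NeZero (p ^ ν)] (hp : p.Prime) (hmν : m ≤ ν) {x : ZMod (p ^ ν)}
    (hx : (p : ZMod (p ^ ν)) ^ (ν - m) * x = 0) : ZMod.castHom (pow_dvd_pow p hmν) (ZMod (p ^ m)) x = 0 := by
  have h1 : ((x.val : ℕ) : ZMod (p ^ ν)) = x := ZMod.natCast_zmod_val x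
  rw [← h1, ← Nat.cast_pow, ← Nat.cast_mul, ZMod.natCast_eq_zero_iff] at hx
  rw [← h1, map_natCast, ZMod.natCast_eq_zero_iff]
  have e : p ^ ν = p ^ (ν - m) * p ^ m := by rw [← pow_add]; congr 1; omega
  exact Nat.dvd_of_mul_dvd_mul_left (pow_pos hp.pos (ν - m)) (by rw [← e]; exact hx)

/-- **Localisation.** -/
theorem loc1 [NeZero (p ^ ν)] [NeZero (p ^ m)] (hp : p.Prime) (hm : 1 ≤ m) (hmν : 2 * m ≤ ν)
    {χ : DirichletCharacter ℂ (p ^ ν)} (hχ : χ.IsPrimitive) :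
    ∃ β : (ZMod (p ^ m))ˣ, ∀ w : ZMod (p ^ m) → ℂ, ∑ a : ZMod (p ^ ν), χ a *
      w (ZMod.castHom (pow_dvd_pow p (by omega : m ≤ ν)) (ZMod (p ^ m)) a) * ZMod.stdAddChar a =
      w β * gaussSum χ (ZMod.stdAddChar : AddChar (ZMod (p ^ ν)) ℂ) := by
  classical
  have hmν' : m ≤ ν := by omega
  obtain ⟨π, hπ⟩ : ∃ π : ZMod (p ^ ν) →+* ZMod (p ^ m), π = ZMod.castHom (pow_dvd_pow p hmν') (ZMod (p ^ m)) :=
    ⟨_, rfl⟩
  obtain ⟨ψ, hψ⟩ : ∃ ψ : AddChar (ZMod (p ^ ν)) ℂ, ψ = ZMod.stdAddChar := ⟨_, rfl⟩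
  have hψp : ψ.IsPrimitive := by rw [hψ]; exact ZMod.isPrimitive_stdAddChar _
  rw [← hψ]
  obtain ⟨H, hH⟩ : ∃ H : ZMod (p ^ m) → ℂ, H = fun c => ∑ a : ZMod (p ^ ν), if π a = c then χ a * ψ a else 0 :=
    ⟨_, rfl⟩
  have hS : ∀ w : ZMod (p ^ m) → ℂ, ∑ a : ZMod (p ^ ν), χ a * w (π a) * ψ a = ∑ c, w c * H c := by
    intro w
    rw [hH]
    simp only [mul_sum]
    rw [sum_comm]
    refine sum_congr rfl fun a _ => ?_
    rw [sum_eq_single (π a)]
    · rw [if_pos rfl]; ring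
    · intro c _ hc
      rw [if_neg (Ne.symm hc), mul_zero]
    · intro h
      exact absurd (mem_univ _) h
  have hsurj : Function.Surjective π := by rw [hπ]; exact ZMod.castHom_surjective _
  -- the invariance
  have hinv : ∀ (c' : ZMod (p ^ ν)) (z : ZMod (p ^ ν)), H (π c') =
      χ (oneU (ν - m) (by omega) z : (ZMod (p ^ ν))ˣ) * ψ ((p : ZMod (p ^ ν)) ^ (ν - m) * z * c') * H (π c') := by
    intro c' z
    have hk : ∀ a : ZMod (p ^ ν), π a = π c' → (p : ZMod (p ^ ν)) ^ (ν - m) * a = (p : ZMod (p ^ ν)) ^ (ν - m) * c' := by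
      intro a ha
      have h1 := ker_mul (p := p) (ν := ν) hmν' (x := a - c') (by rw [← hπ, map_sub, ha, sub_self])
      rw [mul_sub, sub_eq_zero] at h1
      exact h1
    have hu1 : π (oneU (ν - m) (by omega) z : (ZMod (p ^ ν))ˣ) = 1 := by
      rw [oneU_val, map_add, map_one, map_mul, map_pow, map_natCast, pi_zero (by omega : m ≤ ν - m), zero_mul,
        add_zero]
    conv_lhs => rw [hH]
    simp only
    rw [← Equiv.sum_comp (Units.mulRight (oneU (ν - m) (by omega : ν ≤ 2 * (ν - m)) z))]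
    rw [hH]
    simp only
    rw [mul_sum]
    refine sum_congr rfl fun a _ => ?_
    simp only [Units.mulRight_apply]
    rw [map_mul, hu1, mul_one]
    split_ifs with h
    · rw [map_mul, oneU_val]
      have e1 : a * (1 + (p : ZMod (p ^ ν)) ^ (ν - m) * z) = a + (p : ZMod (p ^ ν)) ^ (ν - m) * z * c' := by
        have := hk a h
        linear_combination z * this
      rw [e1, AddChar.map_add_eq_mul]
      ring
    · rw [mul_zero]
  have huniq : ∀ c c' : ZMod (p ^ m), H c ≠ 0 → H c' ≠ 0 → c = c' := by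
    intro c c' hc hc'
    obtain ⟨a, rfl⟩ := hsurj c
    obtain ⟨a', rfl⟩ := hsurj c'
    have h1 : ∀ z : ZMod (p ^ ν), ψ ((p : ZMod (p ^ ν)) ^ (ν - m) * (a - a') * z) = 1 := by
      intro z
      have k1 : χ (oneU (ν - m) (by omega) z : (ZMod (p ^ ν))ˣ) * ψ ((p : ZMod (p ^ ν)) ^ (ν - m) * z * a) = 1 := by
        apply mul_right_cancel₀ hc
        rw [one_mul]
        exact (hinv a z).symm
      have k2 : χ (oneU (ν - m) (by omega) z : (ZMod (p ^ ν))ˣ) * ψ ((p : ZMod (p ^ ν)) ^ (ν - m) * z * a') = 1 := by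
        apply mul_right_cancel₀ hc'
        rw [one_mul]
        exact (hinv a' z).symm
      have k3 : χ (oneU (ν - m) (by omega) z : (ZMod (p ^ ν))ˣ) ≠ 0 := by
        intro h
        rw [h, zero_mul] at k1
        exact zero_ne_one k1
      have k4 : ψ ((p : ZMod (p ^ ν)) ^ (ν - m) * z * a) = ψ ((p : ZMod (p ^ ν)) ^ (ν - m) * z * a') := by
        apply mul_left_cancel₀ k3
        rw [k1, k2]
      have e1 : (p : ZMod (p ^ ν)) ^ (ν - m) * z * a = (p : ZMod (p ^ ν)) ^ (ν - m) * (a - a') * z +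
          (p : ZMod (p ^ ν)) ^ (ν - m) * z * a' := by ring
      rw [e1, AddChar.map_add_eq_mul] at k4
      have k5 : ψ ((p : ZMod (p ^ ν)) ^ (ν - m) * z * a') ≠ 0 := by
        intro h
        rw [h, mul_zero] at k2
        exact zero_ne_one k2
      apply mul_right_cancel₀ k5
      rw [k4, one_mul]
    have h2 : (p : ZMod (p ^ ν)) ^ (ν - m) * (a - a') = 0 := by
      by_contra hne
      apply hψp hne
      ext z
      rw [AddChar.mulShift_apply, h1, AddChar.one_apply]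
    have h3 := mul_ker hp hmν' h2
    rw [← hπ, map_sub, sub_eq_zero] at h3
    exact h3
  have hτ : gaussSum χ ψ = ∑ c, H c := by
    have := hS (fun _ => 1)
    simp only [mul_one, one_mul] at this
    rw [← this]
    rfl
  have hτ0 : gaussSum χ ψ ≠ 0 := by
    intro h
    have h1 := Pool.Agent.Helper112.MLS.norm_gauss (p ^ ν) hχ
    rw [← hψ, h, norm_zero] at h1
    have h2 : (0 : ℝ) < ((p ^ ν : ℕ) : ℝ) := by exact_mod_cast pow_pos hp.pos _
    rw [← h1] at h2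
    simp at h2
  obtain ⟨c, hc⟩ : ∃ c, H c ≠ 0 := by
    by_contra hcon
    push Not at hcon
    apply hτ0
    rw [hτ]
    exact sum_eq_zero fun c _ => hcon c
  have hcu : IsUnit c := by
    by_contra hcu
    apply hc
    rw [hH]
    simp only
    refine sum_eq_zero fun a _ => ?_
    split_ifs with h
    · rw [MulChar.map_nonunit, zero_mul]
      intro ha
      apply hcu
      rw [← h]
      exact ha.map π
    · rfl
  obtain ⟨β, hβ⟩ := hcu
  refine ⟨β, fun w => ?_⟩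
  rw [← hπ, hS, hτ, hβ, mul_sum]
  refine sum_congr rfl fun c' _ => ?_
  by_cases h : H c' = 0
  · rw [h, mul_zero, mul_zero]
  · rw [huniq c c' hc h]

/-- the function on the integers -/
noncomputable def Fw (χ : DirichletCharacter ℂ (p ^ ν)) (w : ZMod (p ^ m) → ℂ) (n : ℤ) : ℂ :=
  χ (n : ZMod (p ^ ν)) * w (n : ZMod (p ^ m))

lemma FH_Fw [NeZero (p ^ ν)] (hmν : m ≤ ν) (χ : DirichletCharacter ℂ (p ^ ν)) (w : ZMod (p ^ m) → ℂ) (j : ℤ) :
    FH (p ^ ν) (Fw χ w) j = ∑ a : ZMod (p ^ ν), χ a *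
      w (ZMod.castHom (pow_dvd_pow p hmν) (ZMod (p ^ m)) a) * ZMod.stdAddChar ((j : ZMod (p ^ ν)) * a) := by
  unfold FH
  rw [← sum_zmod (p ^ ν) (fun a => χ a *
      w (ZMod.castHom (pow_dvd_pow p hmν) (ZMod (p ^ m)) a) * ZMod.stdAddChar ((j : ZMod (p ^ ν)) * a))]
  refine sum_congr rfl fun a _ => ?_
  have e1 : ((j : ZMod (p ^ ν)) * ((a : ℕ) : ZMod (p ^ ν))) = (((j * a : ℤ)) : ZMod (p ^ ν)) := by push_cast; rfl
  rw [e1, ZMod.stdAddChar_coe]
  have e2 : ZMod.castHom (pow_dvd_pow p hmν) (ZMod (p ^ m)) ((a : ℕ) : ZMod (p ^ ν)) = (a : ZMod (p ^ m)) :=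
    map_natCast _ _
  rw [e2]
  unfold KF.e Fw
  congr 1
  · simp
  · congr 1
    push_cast
    ring

/-- the Fourier transform at units -/
theorem FH_unit [NeZero (p ^ ν)] (hmν : m ≤ ν)
    {χ : DirichletCharacter ℂ (p ^ ν)} {τ : ℂ}
    {β : (ZMod (p ^ m))ˣ} (hβ : ∀ w : ZMod (p ^ m) → ℂ, ∑ a : ZMod (p ^ ν), χ a *
      w (ZMod.castHom (pow_dvd_pow p hmν) (ZMod (p ^ m)) a) * ZMod.stdAddChar a =
      w β * τ) (w : ZMod (p ^ m) → ℂ) (j : ℤ) (hj : IsUnit (j : ZMod (p ^ ν))) :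
    FH (p ^ ν) (Fw χ w) j = χ⁻¹ (j : ZMod (p ^ ν)) * w (β * (j : ZMod (p ^ m))⁻¹) * τ := by
  rw [FH_Fw hmν]
  obtain ⟨u, hu⟩ := hj
  have hum : ((j : ZMod (p ^ m))) = ZMod.castHom (pow_dvd_pow p hmν) (ZMod (p ^ m)) (u : ZMod (p ^ ν)) := by
    rw [hu, map_intCast]
  rw [← Equiv.sum_comp (Units.mulRight u⁻¹)]
  have h1 := hβ (fun c => w (c * (j : ZMod (p ^ m))⁻¹))
  have e0 : ∀ a : ZMod (p ^ ν), χ (Units.mulRight u⁻¹ a) *
      w (ZMod.castHom (pow_dvd_pow p hmν) (ZMod (p ^ m)) (Units.mulRight u⁻¹ a)) *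
      ZMod.stdAddChar ((j : ZMod (p ^ ν)) * Units.mulRight u⁻¹ a) =
      χ⁻¹ (j : ZMod (p ^ ν)) * (χ a * w (ZMod.castHom (pow_dvd_pow p hmν) (ZMod (p ^ m)) a *
        (j : ZMod (p ^ m))⁻¹) * ZMod.stdAddChar a) := by
    intro a
    rw [Units.mulRight_apply, map_mul, map_mul]
    have e1 : ZMod.castHom (pow_dvd_pow p hmν) (ZMod (p ^ m)) ((u⁻¹ : (ZMod (p ^ ν))ˣ) : ZMod (p ^ ν)) =
        (j : ZMod (p ^ m))⁻¹ := by
      rw [hum]
      have h2 : ZMod.castHom (pow_dvd_pow p hmν) (ZMod (p ^ m)) (u : ZMod (p ^ ν)) *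
          ZMod.castHom (pow_dvd_pow p hmν) (ZMod (p ^ m)) ((u⁻¹ : (ZMod (p ^ ν))ˣ) : ZMod (p ^ ν)) = 1 := by
        rw [← map_mul, Units.mul_inv, map_one]
      exact (ZMod.inv_eq_of_mul_eq_one _ _ _ h2).symm
    have e2 : (j : ZMod (p ^ ν)) * (a * ((u⁻¹ : (ZMod (p ^ ν))ˣ) : ZMod (p ^ ν))) = a := by
      rw [← hu, mul_comm a, ← mul_assoc, Units.mul_inv, one_mul]
    have e3 : χ⁻¹ (j : ZMod (p ^ ν)) = χ ((u⁻¹ : (ZMod (p ^ ν))ˣ) : ZMod (p ^ ν)) := by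
      rw [← hu, MulChar.inv_apply, Ring.inverse_unit]
    rw [e1, e2, e3]
    ring
  simp_rw [e0]
  rw [← mul_sum, h1]
  ring

end Run7.h343.GV
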