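import Pool.Agent.Run7.h343.GV.Sep

/-!
Mellin transforms for the first moment.
-/

set_option autoImplicit false

namespace Run7.h343.GV

open Complex Finset MeasureTheory
open Run7.h343.GI

/-- the Mellin transform of the exponential function -/
lemma mel_exp {b s : ℂ} (hb : 0 < b.re) (hs : 0 < s.re) :
    MellinConvergent (fun x : ℝ => cexp (-(b * x))) s ∧
    mellin (fun x : ℝ => cexp (-(b * x))) s = (1 / b) ^ s * Gamma s := by
  constructor
  · unfold MellinConvergent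
    refine Integrable.mono' (Pool.Agent.H581R3.GPR.Rot.int_rpow_exp (s := s.re - 1)
      (b := b.re) (by linarith) hb) (by
        simp only [smul_eq_mul]
        exact Pool.Agent.H581R3.GPR.Rot.cpow_exp_meas s b) ?_
    refine (ae_restrict_iff' measurableSet_Ioi).2 (Filter.Eventually.of_forall fun t ht => ?_)
    have ht0 : (0:ℝ) < t := ht
    rw [norm_smul, Complex.norm_cpow_eq_rpow_re_of_pos ht0, Complex.norm_exp]
    simp
  · unfold mellin
    simp only [smul_eq_mul]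
    exact Pool.Agent.H581R3.GPR.Rot.rot_formula hs hb

/-- the Mellin transform of `exp (-b/x) / x` -/
lemma mel_inv {b s : ℂ} (hb : 0 < b.re) (hs : s.re < 1) :
    MellinConvergent (fun x : ℝ => (1 / (x : ℂ)) * cexp (-(b * ((x⁻¹ : ℝ) : ℂ)))) s ∧
    mellin (fun x : ℝ => (1 / (x : ℂ)) * cexp (-(b * ((x⁻¹ : ℝ) : ℂ)))) s = (1 / b) ^ (1 - s) * Gamma (1 - s) := by
  have hs' : 0 < (1 - s).re := by rw [sub_re, one_re]; linarith
  obtain ⟨h1, h2⟩ := mel_exp (b := b) (s := 1 - s) hb hs'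
  have e0 : (fun x : ℝ => (1 / (x : ℂ)) * cexp (-(b * ((x⁻¹ : ℝ) : ℂ)))) =
      fun x : ℝ => (fun y : ℝ => (y : ℂ) ^ (1 : ℂ) • cexp (-(b * y))) (x⁻¹) := by
    funext x
    simp only [smul_eq_mul, Complex.cpow_one]
    push_cast
    rw [one_div]
  rw [e0]
  constructor
  · have h3 := (MellinConvergent.comp_rpow (f := fun y : ℝ => (y : ℂ) ^ (1 : ℂ) • cexp (-(b * y))) (s := s)
      (a := -1) (by norm_num)).2
    simp only [Real.rpow_neg_one] at h3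
    apply h3
    have e1 : s / ((-1 : ℝ) : ℂ) = -s := by push_cast; ring
    rw [e1]
    refine (MellinConvergent.cpow_smul (f := fun y : ℝ => cexp (-(b * y))) (s := -s) (a := 1)).2 ?_
    rw [neg_add_eq_sub]
    exact h1
  · rw [mellin_comp_inv (fun y : ℝ => (y : ℂ) ^ (1 : ℂ) • cexp (-(b * y))) s, mellin_cpow_smul, neg_add_eq_sub]
    exact h2

/-- the weights -/
lemma int_exp {a : ℝ} (ha : 0 < a) :
    IntegrableOn (fun x : ℝ => x ^ (-(1 / 2) : ℝ) * Real.exp (-(a * x))) (Set.Ioi 0) ∧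
    ∫ x in Set.Ioi (0 : ℝ), x ^ (-(1 / 2) : ℝ) * Real.exp (-(a * x)) = Real.sqrt (Real.pi / a) := by
  refine ⟨Pool.Agent.H581R3.GPR.Rot.int_rpow_exp (by norm_num) ha, ?_⟩
  have h1 := Real.integral_rpow_mul_exp_neg_mul_Ioi (a := 1 / 2) (r := a) (by norm_num) ha
  have e1 : (1 / 2 - 1 : ℝ) = -(1 / 2) := by norm_num
  rw [e1] at h1
  rw [h1, Real.Gamma_one_half_eq, ← Real.sqrt_eq_rpow, ← Real.sqrt_mul (by positivity)]
  congr 1
  ring

lemma int_inv {a : ℝ} (ha : 0 < a) :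
    IntegrableOn (fun x : ℝ => x ^ (-(3 / 2) : ℝ) * Real.exp (-(a * x⁻¹))) (Set.Ioi 0) ∧
    ∫ x in Set.Ioi (0 : ℝ), x ^ (-(3 / 2) : ℝ) * Real.exp (-(a * x⁻¹)) = Real.sqrt (Real.pi / a) := by
  obtain ⟨h1, h2⟩ := int_exp ha
  have e0 : ∀ x ∈ Set.Ioi (0 : ℝ), (|(-1 : ℝ)| * x ^ ((-1 : ℝ) - 1)) •
      (fun y : ℝ => y ^ (-(1 / 2) : ℝ) * Real.exp (-(a * y))) (x ^ (-1 : ℝ)) =
      x ^ (-(3 / 2) : ℝ) * Real.exp (-(a * x⁻¹)) := by
    intro x hx
    have hx0 : (0 : ℝ) < x := hx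
    simp only [smul_eq_mul, abs_neg, abs_one, one_mul]
    rw [← Real.rpow_mul hx0.le, ← mul_assoc, ← Real.rpow_add hx0, Real.rpow_neg_one]
    norm_num
  constructor
  · have h3 := (integrableOn_Ioi_comp_rpow_iff (fun y : ℝ => y ^ (-(1 / 2) : ℝ) * Real.exp (-(a * y)))
      (p := -1) (by norm_num)).2 h1
    exact h3.congr_fun e0 measurableSet_Ioi
  · rw [← h2, ← integral_comp_rpow_Ioi (fun y : ℝ => y ^ (-(1 / 2) : ℝ) * Real.exp (-(a * y)))
      (p := -1) (by norm_num)]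
    exact (setIntegral_congr_fun measurableSet_Ioi e0).symm

/-- the weight near the centre -/
lemma int_cen {B x0 : ℝ} (hx0 : 0 < x0) :
    IntegrableOn (fun x : ℝ => if x ≤ x0 then B / x0 * x ^ (-(1 / 2) : ℝ) else B * x ^ (-(3 / 2) : ℝ)) (Set.Ioi 0) ∧
    ∫ x in Set.Ioi (0 : ℝ), (if x ≤ x0 then B / x0 * x ^ (-(1 / 2) : ℝ) else B * x ^ (-(3 / 2) : ℝ)) =
      4 * B * x0 ^ (-(1 / 2) : ℝ) := by
  have hU : Set.Ioi (0 : ℝ) = Set.Ioc 0 x0 ∪ Set.Ioi x0 := (Set.Ioc_union_Ioi_eq_Ioi hx0.le).symm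
  have hd : Disjoint (Set.Ioc 0 x0) (Set.Ioi x0) := Set.Ioc_disjoint_Ioi le_rfl
  have e1 : ∀ x ∈ Set.Ioc 0 x0, (if x ≤ x0 then B / x0 * x ^ (-(1 / 2) : ℝ) else B * x ^ (-(3 / 2) : ℝ)) =
      B / x0 * x ^ (-(1 / 2) : ℝ) := fun x hx => if_pos hx.2
  have e2 : ∀ x ∈ Set.Ioi x0, (if x ≤ x0 then B / x0 * x ^ (-(1 / 2) : ℝ) else B * x ^ (-(3 / 2) : ℝ)) =
      B * x ^ (-(3 / 2) : ℝ) := fun x hx => if_neg (not_le.2 hx)
  have i1 : IntegrableOn (fun x : ℝ => x ^ (-(1 / 2) : ℝ)) (Set.Ioc 0 x0) := by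
    have := intervalIntegral.intervalIntegrable_rpow' (a := 0) (b := x0) (r := -(1 / 2)) (by norm_num)
    rwa [intervalIntegrable_iff_integrableOn_Ioc_of_le hx0.le] at this
  have i2 : IntegrableOn (fun x : ℝ => x ^ (-(3 / 2) : ℝ)) (Set.Ioi x0) :=
    integrableOn_Ioi_rpow_of_lt (by norm_num) hx0
  have j1 : ∫ x in Set.Ioc 0 x0, x ^ (-(1 / 2) : ℝ) = 2 * x0 ^ (1 / 2 : ℝ) := by
    rw [← intervalIntegral.integral_of_le hx0.le, integral_rpow (Or.inl (by norm_num)), Real.zero_rpow (by norm_num)]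
    norm_num
    ring
  have j2 : ∫ x in Set.Ioi x0, x ^ (-(3 / 2) : ℝ) = 2 * x0 ^ (-(1 / 2) : ℝ) := by
    rw [integral_Ioi_rpow_of_lt (by norm_num) hx0]
    norm_num
    ring
  have k1 : IntegrableOn (fun x : ℝ => if x ≤ x0 then B / x0 * x ^ (-(1 / 2) : ℝ) else B * x ^ (-(3 / 2) : ℝ))
      (Set.Ioc 0 x0) := IntegrableOn.congr_fun (i1.const_mul (B / x0)) (fun x hx => (e1 x hx).symm) measurableSet_Ioc
  have k2 : IntegrableOn (fun x : ℝ => if x ≤ x0 then B / x0 * x ^ (-(1 / 2) : ℝ) else B * x ^ (-(3 / 2) : ℝ))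
      (Set.Ioi x0) := IntegrableOn.congr_fun (i2.const_mul B) (fun x hx => (e2 x hx).symm) measurableSet_Ioi
  constructor
  · rw [hU]; exact k1.union k2
  · rw [hU, setIntegral_union hd measurableSet_Ioi k1 k2, setIntegral_congr_fun measurableSet_Ioc e1,
      setIntegral_congr_fun measurableSet_Ioi e2, integral_const_mul, integral_const_mul, j1, j2]
    have e3 : x0 ^ (1 / 2 : ℝ) = x0 * x0 ^ (-(1 / 2) : ℝ) := by
      have := Real.rpow_add hx0 1 (-(1 / 2))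
      rw [Real.rpow_one] at this
      rw [← this]
      norm_num
    rw [e3]
    field_simp
    ring

/-- the modulus of a complex power on a ray -/
lemma nrm_pow {ω : ℂ} (hω1 : ‖ω‖ = 1) {r : ℝ} (hr : 0 < r) (z : ℂ) :
    ‖((r : ℂ) * ω) ^ z‖ = r ^ z.re * Real.exp (-(arg ω * z.im)) := by
  have hω0 : ω ≠ 0 := by intro h; rw [h, norm_zero] at hω1; exact zero_ne_one hω1
  have hne : (r : ℂ) * ω ≠ 0 := mul_ne_zero (by exact_mod_cast hr.ne') hω0
  rw [norm_cpow_of_ne_zero hne, arg_real_mul _ hr, norm_mul, Complex.norm_real, Real.norm_of_nonneg hr.le, hω1,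
    mul_one, div_eq_mul_inv, ← Real.exp_neg]

lemma conj_eq_inv {ω : ℂ} (hω1 : ‖ω‖ = 1) : starRingEnd ℂ ω = ω⁻¹ := by
  rw [Complex.inv_def, Complex.normSq_eq_norm_sq, hω1]
  simp

lemma arg_conj' {ω : ℂ} (hω : 0 < ω.re) : arg (starRingEnd ℂ ω) = -arg ω := by
  rw [arg_conj, if_neg]
  intro h
  rw [arg_eq_pi_iff] at h
  linarith [h.1]

lemma half_gamma (t : ℝ) : ‖Gamma (1 - (1 / 2 + t * I))‖ = ‖Gamma (1 / 2 + t * I)‖ := by
  have e1 : (1 - (1 / 2 + t * I) : ℂ) = starRingEnd ℂ (1 / 2 + t * I) := by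
    simp only [map_add, map_mul, conj_ofReal, conj_I, map_div₀, map_one]
    have : (starRingEnd ℂ) 2 = 2 := by
      have := conj_ofReal 2
      simpa using this
    rw [this]
    ring
  rw [e1, Gamma_conj, norm_conj]

/-- **The core inequality for the first moment.** -/
theorem fm_core {ω : ℂ} (hω : 0 < ω.re) (hω1 : ‖ω‖ = 1) {t : ℝ}
    (hfac : ‖(Real.pi * ω : ℂ) ^ (1 / 2 + t * I : ℂ) * (Gamma (1 / 2 + t * I))⁻¹‖ ≤ Real.exp 1)
    {G : ℝ → ℂ} (hG : MellinConvergent G (1 / 2 + t * I)) {q a d K N1 N0 : ℝ} (hq : 0 < q) (ha : 0 < a)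
    (hd : 0 ≤ d) (hK : 0 ≤ K) (hN1 : 0 < N1) (hN0 : 0 < N0) {c1 c0 ε : ℂ} (hc1 : ‖c1‖ = 1) (hc0 : ‖c0‖ ≤ 1)
    (hε : ‖ε‖ = 1)
    (h1 : ∀ x : ℝ, 0 < x → ‖G x - 4 * c1 * cexp (-(Real.pi * ω * N1 * x))‖ ≤
      d * Real.exp (-(a * x)) + K * x⁻¹)
    (h2 : ∀ x : ℝ, 0 < x → ‖G x - ε / ((Real.sqrt q : ℂ) * ω * x) *
      (4 * c0 * cexp (-(Real.pi * starRingEnd ℂ ω * N0 / q * ((x⁻¹ : ℝ) : ℂ))))‖ ≤
      1 / (Real.sqrt q * x) * (d * Real.exp (-(a / q * x⁻¹)) + K * (q * x))) :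
    4 / Real.sqrt N1 - 4 * ‖c0‖ / Real.sqrt N0 ≤
      ‖(Real.pi * ω : ℂ) ^ (1 / 2 + t * I : ℂ) * (Gamma (1 / 2 + t * I))⁻¹ * mellin G (1 / 2 + t * I)‖ +
      Real.exp 1 * (2 * (d * Real.sqrt (Real.pi / a)) + 4 * (K + 4 / Real.sqrt q) * q ^ (1 / 4 : ℝ)) := by
  obtain ⟨s, hs⟩ : ∃ s : ℂ, s = 1 / 2 + t * I := ⟨_, rfl⟩
  have hsre : s.re = 1 / 2 := by rw [hs]; simp
  have hsim : s.im = t := by rw [hs]; simp
  have hgam := half_gamma t
  rw [← hs] at hfac hG hgam ⊢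
  have hω0 : ω ≠ 0 := by intro h; rw [h] at hω; simp at hω
  have hpi := Real.pi_pos
  have hsq : 0 < Real.sqrt q := Real.sqrt_pos.2 hq
  -- the main terms
  obtain ⟨b1, hb1⟩ : ∃ b1 : ℂ, b1 = Real.pi * ω * N1 := ⟨_, rfl⟩
  obtain ⟨b0, hb0⟩ : ∃ b0 : ℂ, b0 = Real.pi * starRingEnd ℂ ω * N0 / q := ⟨_, rfl⟩
  have hb1re : 0 < b1.re := by
    have e : b1 = ((Real.pi * N1 : ℝ) : ℂ) * ω := by rw [hb1]; push_cast; ring
    rw [e, re_ofReal_mul]; positivity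
  have hb0re : 0 < b0.re := by
    have e : b0 = ((Real.pi * N0 / q : ℝ) : ℂ) * starRingEnd ℂ ω := by rw [hb0]; push_cast; ring
    rw [e, re_ofReal_mul, conj_re]; positivity
  obtain ⟨m1, n1⟩ := mel_exp (s := s) hb1re (by rw [hsre]; norm_num)
  obtain ⟨m0, n0⟩ := mel_inv (s := s) hb0re (by rw [hsre]; norm_num)
  obtain ⟨M1, hM1⟩ : ∃ M1 : ℝ → ℂ, M1 = fun x : ℝ => (4 * c1) • cexp (-(b1 * x)) := ⟨_, rfl⟩
  obtain ⟨D, hD⟩ : ∃ D : ℝ → ℂ, D = fun x : ℝ => (ε / ((Real.sqrt q : ℂ) * ω) * (4 * c0)) •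
      ((1 / (x : ℂ)) * cexp (-(b0 * ((x⁻¹ : ℝ) : ℂ)))) := ⟨_, rfl⟩
  have hM1c : MellinConvergent M1 s := by rw [hM1]; exact m1.const_smul _
  have hDc : MellinConvergent D s := by rw [hD]; exact m0.const_smul _
  have hM1v : mellin M1 s = (4 * c1) * ((1 / b1) ^ s * Gamma s) := by
    rw [hM1, mellin_const_smul, n1, smul_eq_mul]
  have hDv : mellin D s = (ε / ((Real.sqrt q : ℂ) * ω) * (4 * c0)) * ((1 / b0) ^ (1 - s) * Gamma (1 - s)) := by
    rw [hD, mellin_const_smul, n0, smul_eq_mul]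
  -- the difference
  have hsub : mellin (fun x => G x - M1 x - D x) s = mellin G s - mellin M1 s - mellin D s := by
    unfold mellin
    have hA : Integrable (fun x : ℝ => (x : ℂ) ^ (s - 1) • G x - (x : ℂ) ^ (s - 1) • M1 x)
        (volume.restrict (Set.Ioi 0)) := hG.sub hM1c
    rw [← integral_sub hG hM1c, ← integral_sub hA hDc]
    refine integral_congr_ae (Filter.Eventually.of_forall fun x => ?_)
    simp only [smul_sub]
  -- its bound
  obtain ⟨x0, hx0⟩ : ∃ x0 : ℝ, x0 = 1 / Real.sqrt q := ⟨_, rfl⟩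
  have hx0p : 0 < x0 := by rw [hx0]; positivity
  obtain ⟨B, hB⟩ : ∃ B : ℝ, B = K + 4 / Real.sqrt q := ⟨_, rfl⟩
  have hBp : 0 ≤ B := by rw [hB]; positivity
  obtain ⟨i1, j1⟩ := int_exp ha
  obtain ⟨i2, j2⟩ := int_inv (a := a / q) (by positivity)
  obtain ⟨i3, j3⟩ := int_cen (B := B) hx0p
  have hM1n : ∀ x : ℝ, 0 < x → ‖M1 x‖ ≤ 4 := by
    intro x hx
    rw [hM1]
    simp only [norm_smul, norm_mul, hc1, mul_one]
    have h3 : ‖cexp (-(b1 * x))‖ ≤ 1 := by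
      rw [norm_exp, neg_re, re_mul_ofReal]
      apply Real.exp_le_one_iff.2
      have := mul_pos hb1re hx
      linarith
    have h4 : ‖(4 : ℂ)‖ = 4 := by simp
    rw [h4]
    linarith
  have hDn : ∀ x : ℝ, 0 < x → ‖D x‖ ≤ 4 / Real.sqrt q * x⁻¹ := by
    intro x hx
    rw [hD]
    simp only [norm_smul, norm_mul, norm_div, hε, hω1, norm_one, mul_one, Complex.norm_real,
      Real.norm_of_nonneg hx.le, Real.norm_of_nonneg hsq.le]
    have h3 : ‖cexp (-(b0 * ((x⁻¹ : ℝ) : ℂ)))‖ ≤ 1 := by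
      rw [norm_exp, neg_re, re_mul_ofReal]
      apply Real.exp_le_one_iff.2
      have := mul_pos hb0re (inv_pos.2 hx)
      linarith
    have h4 : ‖(4 : ℂ)‖ = 4 := by simp
    rw [h4]
    calc 1 / Real.sqrt q * (4 * ‖c0‖) * (1 / x * ‖cexp (-(b0 * ((x⁻¹ : ℝ) : ℂ)))‖)
        ≤ 1 / Real.sqrt q * (4 * 1) * (1 / x * 1) := by gcongr
      _ = _ := by ring
  have hbd : ‖mellin (fun x => G x - M1 x - D x) s‖ ≤
      2 * (d * Real.sqrt (Real.pi / a)) + 4 * B * q ^ (1 / 4 : ℝ) := by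
    unfold mellin
    have k1 := norm_integral_le_of_norm_le (μ := volume.restrict (Set.Ioi (0 : ℝ)))
      (f := fun x : ℝ => (x : ℂ) ^ (s - 1) • (G x - M1 x - D x))
      (((i1.const_mul d).add (i2.const_mul (d / Real.sqrt q))).add i3)
      ((ae_restrict_iff' measurableSet_Ioi).2 (Filter.Eventually.of_forall fun x hx => by
        have hxp : (0 : ℝ) < x := hx
        simp only [Pi.add_apply]
        rw [norm_smul, Complex.norm_cpow_eq_rpow_re_of_pos hxp, sub_re, one_re, hsre]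
        have er : (1 / 2 - 1 : ℝ) = -(1 / 2) := by norm_num
        rw [er]
        have e32 : x ^ (-(3 / 2) : ℝ) = x ^ (-(1 / 2) : ℝ) * x⁻¹ := by
          rw [← Real.rpow_neg_one x, ← Real.rpow_add hxp]; norm_num
        have hxh : 0 < x ^ (-(1 / 2) : ℝ) := Real.rpow_pos_of_pos hxp _
        have t1 : 0 ≤ d * (x ^ (-(1 / 2) : ℝ) * Real.exp (-(a * x))) := by positivity
        have t2 : 0 ≤ d / Real.sqrt q * (x ^ (-(3 / 2) : ℝ) * Real.exp (-(a / q * x⁻¹))) := by positivity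
        split_ifs with hle
        · -- small x
          have hm := hM1n x hxp
          have hh := h2 x hxp
          have e1 : ε / ((Real.sqrt q : ℂ) * ω * x) *
              (4 * c0 * cexp (-(Real.pi * starRingEnd ℂ ω * N0 / q * ((x⁻¹ : ℝ) : ℂ)))) = D x := by
            rw [hD, hb0]
            simp only [smul_eq_mul]
            have hxc : (x : ℂ) ≠ 0 := by exact_mod_cast hxp.ne'
            have hqc : (Real.sqrt q : ℂ) ≠ 0 := by exact_mod_cast hsq.ne'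
            field_simp
          rw [e1] at hh
          have h3 : ‖G x - M1 x - D x‖ ≤ ‖G x - D x‖ + ‖M1 x‖ := by
            have : G x - M1 x - D x = (G x - D x) - M1 x := by ring
            rw [this]; exact norm_sub_le _ _
          have h4 : ‖G x - M1 x - D x‖ ≤
              1 / (Real.sqrt q * x) * (d * Real.exp (-(a / q * x⁻¹)) + K * (q * x)) + 4 := by linarith
          have h5 : 1 / (Real.sqrt q * x) * (d * Real.exp (-(a / q * x⁻¹)) + K * (q * x)) + 4 =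
              d / Real.sqrt q * (x⁻¹ * Real.exp (-(a / q * x⁻¹))) + B / x0 := by
            have hqq : q = Real.sqrt q * Real.sqrt q := (Real.mul_self_sqrt hq.le).symm
            rw [hB, hx0]
            obtain ⟨r, hr⟩ : ∃ r, r = Real.sqrt q := ⟨_, rfl⟩
            rw [← hr] at hqq hsq ⊢
            have hE : Real.exp (-(a / q * x⁻¹)) = Real.exp (-(a / q * x⁻¹)) := rfl
            obtain ⟨E, hE'⟩ : ∃ E, E = Real.exp (-(a / q * x⁻¹)) := ⟨_, rfl⟩
            rw [← hE', hqq]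
            field_simp
            ring
          rw [h5] at h4
          calc x ^ (-(1 / 2) : ℝ) * ‖G x - M1 x - D x‖
              ≤ x ^ (-(1 / 2) : ℝ) * (d / Real.sqrt q * (x⁻¹ * Real.exp (-(a / q * x⁻¹))) + B / x0) := by gcongr
            _ = d / Real.sqrt q * (x ^ (-(3 / 2) : ℝ) * Real.exp (-(a / q * x⁻¹))) + B / x0 * x ^ (-(1 / 2) : ℝ) := by
                rw [e32]; ring
            _ ≤ _ := by linarith
        · -- large x
          have hm := hDn x hxp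
          have hh := h1 x hxp
          have e1 : 4 * c1 * cexp (-(Real.pi * ω * N1 * x)) = M1 x := by
            rw [hM1, hb1]
            simp only [smul_eq_mul]
          rw [e1] at hh
          have h3 : ‖G x - M1 x - D x‖ ≤ ‖G x - M1 x‖ + ‖D x‖ := norm_sub_le _ _
          have h4 : ‖G x - M1 x - D x‖ ≤ d * Real.exp (-(a * x)) + B * x⁻¹ := by
            rw [hB]; linarith
          calc x ^ (-(1 / 2) : ℝ) * ‖G x - M1 x - D x‖
              ≤ x ^ (-(1 / 2) : ℝ) * (d * Real.exp (-(a * x)) + B * x⁻¹) := by gcongr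
            _ = d * (x ^ (-(1 / 2) : ℝ) * Real.exp (-(a * x))) + B * x ^ (-(3 / 2) : ℝ) := by
                rw [e32]; ring
            _ ≤ _ := by linarith))
    refine k1.trans (le_of_eq ?_)
    have s1 : Integrable (fun x : ℝ => d * (x ^ (-(1 / 2) : ℝ) * Real.exp (-(a * x))))
      (volume.restrict (Set.Ioi (0 : ℝ))) := i1.const_mul d
    have s2 : Integrable (fun x : ℝ => d / Real.sqrt q * (x ^ (-(3 / 2) : ℝ) * Real.exp (-(a / q * x⁻¹))))
      (volume.restrict (Set.Ioi (0 : ℝ))) := i2.const_mul (d / Real.sqrt q)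
    have s3 := integral_add (s1.add s2) i3
    have s4 := integral_add s1 s2
    have s5 : ∫ x in Set.Ioi (0 : ℝ), (((fun x : ℝ => d * (x ^ (-(1 / 2) : ℝ) * Real.exp (-(a * x)))) +
        fun x : ℝ => d / Real.sqrt q * (x ^ (-(3 / 2) : ℝ) * Real.exp (-(a / q * x⁻¹)))) +
        fun x : ℝ => if x ≤ x0 then B / x0 * x ^ (-(1 / 2) : ℝ) else B * x ^ (-(3 / 2) : ℝ)) x =
        d * Real.sqrt (Real.pi / a) + d / Real.sqrt q * Real.sqrt (Real.pi / (a / q)) +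
          4 * B * x0 ^ (-(1 / 2) : ℝ) := by
      rw [← j1, ← j2, ← j3, ← integral_const_mul, ← integral_const_mul, ← s4]
      exact s3
    rw [s5]
    have e1 : Real.sqrt (Real.pi / (a / q)) = Real.sqrt (Real.pi / a) * Real.sqrt q := by
      rw [← Real.sqrt_mul (by positivity)]
      congr 1
      field_simp
    have e2 : x0 ^ (-(1 / 2) : ℝ) = q ^ (1 / 4 : ℝ) := by
      rw [hx0, Real.sqrt_eq_rpow, one_div, ← Real.rpow_neg hq.le, ← Real.rpow_mul hq.le]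
      norm_num
    rw [e1, e2]
    field_simp
    ring
  -- the moduli of the main terms
  obtain ⟨Z, hZ⟩ : ∃ Z : ℝ, Z = Real.exp (arg ω * t) * ‖Gamma s‖ := ⟨_, rfl⟩
  have hG0 : Gamma s ≠ 0 := Gamma_ne_zero_of_re_pos (by rw [hsre]; norm_num)
  have hGn : 0 < ‖Gamma s‖ := norm_pos_iff.2 hG0
  have hZp : 0 < Z := by rw [hZ]; positivity
  have hinv : starRingEnd ℂ ω = ω⁻¹ := conj_eq_inv hω1
  have hω1' : ‖starRingEnd ℂ ω‖ = 1 := by rw [norm_conj, hω1]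
  have harg := arg_conj' hω
  have v1 : ‖mellin M1 s‖ = 4 / Real.sqrt N1 * ((Real.sqrt Real.pi)⁻¹ * Z) := by
    rw [hM1v, norm_mul, norm_mul, norm_mul, hc1]
    have e1 : 1 / b1 = (((Real.pi * N1)⁻¹ : ℝ) : ℂ) * starRingEnd ℂ ω := by
      rw [hb1, hinv]; push_cast; rw [one_div, mul_inv, mul_inv, mul_inv]; ring
    rw [e1, nrm_pow hω1' (by positivity), hsre, hsim, harg, hZ]
    have e2 : ((Real.pi * N1)⁻¹) ^ (1 / 2 : ℝ) = (Real.sqrt Real.pi)⁻¹ * (Real.sqrt N1)⁻¹ := by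
      rw [← Real.sqrt_eq_rpow, Real.sqrt_inv, Real.sqrt_mul hpi.le, mul_inv]
    have e3 : -(-arg ω * t) = arg ω * t := by ring
    rw [e2, e3]
    have h4 : ‖(4 : ℂ)‖ = 4 := by simp
    rw [h4]
    ring
  have v0 : ‖mellin D s‖ = 4 * ‖c0‖ / Real.sqrt N0 * ((Real.sqrt Real.pi)⁻¹ * Z) := by
    rw [hDv, norm_mul, norm_mul, norm_mul, norm_mul, norm_div, norm_mul, hε, hω1, hgam]
    have e1 : 1 / b0 = ((q / (Real.pi * N0) : ℝ) : ℂ) * ω := by
      rw [hb0, hinv]; push_cast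
      have hN0c : (N0 : ℂ) ≠ 0 := by exact_mod_cast hN0.ne'
      have hqc : (q : ℂ) ≠ 0 := by exact_mod_cast hq.ne'
      have hpc : (Real.pi : ℂ) ≠ 0 := by exact_mod_cast hpi.ne'
      field_simp
    have e5 : (1 - s).re = 1 / 2 := by rw [sub_re, one_re, hsre]; norm_num
    have e6 : (1 - s).im = -t := by rw [sub_im, one_im, hsim]; ring
    rw [e1, nrm_pow hω1 (by positivity), e5, e6, hZ]
    have e2 : (q / (Real.pi * N0)) ^ (1 / 2 : ℝ) = Real.sqrt q * ((Real.sqrt Real.pi)⁻¹ * (Real.sqrt N0)⁻¹) := by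
      rw [← Real.sqrt_eq_rpow, Real.sqrt_div hq.le, Real.sqrt_mul hpi.le, div_eq_mul_inv, mul_inv]
    have e3 : -(arg ω * -t) = arg ω * t := by ring
    rw [e2, e3, Complex.norm_real, Real.norm_of_nonneg hsq.le]
    have h4 : ‖(4 : ℂ)‖ = 4 := by simp
    rw [h4]
    field_simp
  obtain ⟨X, hX⟩ : ∃ X : ℂ, X = (Real.pi * ω : ℂ) ^ s * (Gamma s)⁻¹ := ⟨_, rfl⟩
  rw [← hX] at hfac ⊢
  have hXZ : ‖X‖ * ((Real.sqrt Real.pi)⁻¹ * Z) = 1 := by
    rw [hX, norm_mul, norm_inv, nrm_pow hω1 hpi, hsre, hsim, hZ, ← Real.sqrt_eq_rpow]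
    have hsp : Real.sqrt Real.pi ≠ 0 := (Real.sqrt_pos.2 hpi).ne'
    have e1 : Real.exp (-(arg ω * t)) * Real.exp (arg ω * t) = 1 := by
      rw [← Real.exp_add]; simp
    calc _ = (Real.sqrt Real.pi * (Real.sqrt Real.pi)⁻¹) * (Real.exp (-(arg ω * t)) * Real.exp (arg ω * t)) *
          (‖Gamma s‖⁻¹ * ‖Gamma s‖) := by ring
      _ = 1 := by rw [e1, mul_inv_cancel₀ hsp, inv_mul_cancel₀ hGn.ne']; norm_num
  have fin1 : ‖mellin M1 s‖ ≤ ‖mellin G s‖ + ‖mellin D s‖ + ‖mellin (fun x => G x - M1 x - D x) s‖ := by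
    have : mellin M1 s = mellin G s - mellin D s - mellin (fun x => G x - M1 x - D x) s := by
      rw [hsub]; ring
    rw [this]
    refine (norm_sub_le _ _).trans ?_
    have := norm_sub_le (mellin G s) (mellin D s)
    linarith
  have hX0 : 0 ≤ ‖X‖ := norm_nonneg _
  have fin2 : ‖X‖ * ‖mellin M1 s‖ ≤ ‖X‖ * ‖mellin G s‖ + ‖X‖ * ‖mellin D s‖ +
      ‖X‖ * ‖mellin (fun x => G x - M1 x - D x) s‖ := by
    rw [← mul_add, ← mul_add]
    exact mul_le_mul_of_nonneg_left fin1 hX0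
  have w1 : ‖X‖ * ‖mellin M1 s‖ = 4 / Real.sqrt N1 := by
    rw [v1]
    calc _ = 4 / Real.sqrt N1 * (‖X‖ * ((Real.sqrt Real.pi)⁻¹ * Z)) := by ring
      _ = _ := by rw [hXZ, mul_one]
  have w0 : ‖X‖ * ‖mellin D s‖ = 4 * ‖c0‖ / Real.sqrt N0 := by
    rw [v0]
    calc _ = 4 * ‖c0‖ / Real.sqrt N0 * (‖X‖ * ((Real.sqrt Real.pi)⁻¹ * Z)) := by ring
      _ = _ := by rw [hXZ, mul_one]
  have w2 : ‖X‖ * ‖mellin (fun x => G x - M1 x - D x) s‖ ≤
      Real.exp 1 * (2 * (d * Real.sqrt (Real.pi / a)) + 4 * B * q ^ (1 / 4 : ℝ)) :=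
    mul_le_mul hfac hbd (norm_nonneg _) (Real.exp_pos _).le
  rw [norm_mul, ← hB]
  linarith

end Run7.h343.GV
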