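import Pool.Agent.Run7.h343.GV.Loc

/-!
Gaussian integers with equal `d`-th powers modulo a power of a prime ideal.
-/

set_option autoImplicit false

namespace Run7.h343.GV

open Complex Finset
open Run7.h343.GI

variable {p ν m d : ℕ} {ι : ℤ} {ϖ : GaussianInt}

lemma Nn_eq (α : GaussianInt) : ((Nn α : ℤ) : ℝ) = normSq (α : ℂ) := by
  rw [normSq_int]; unfold Nn; push_cast; rfl

lemma Nn_eq' (α : GaussianInt) : ((Nn α : ℤ) : ℝ) = ‖(α : ℂ)‖ ^ 2 := by
  rw [Nn_eq, Complex.normSq_eq_norm_sq]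

lemma Nn_nonneg (α : GaussianInt) : 0 ≤ Nn α := by unfold Nn; positivity

/-- the residue modulo `p ^ m` of a power -/
lemma res_pow (h : Fr p ν ι ϖ) (hmν : m ≤ ν) (α : GaussianInt) (d : ℕ) :
    ((red ι (α ^ d) : ℤ) : ZMod (p ^ m)) = ((red ι α : ℤ) : ZMod (p ^ m)) ^ d := by
  have h1 := (pow_dvd_pow (p : ℤ) hmν).trans (h.red_pow α d)
  have h2 : (((red ι α ^ d - red ι (α ^ d) : ℤ)) : ZMod (p ^ m)) = 0 := by
    rw [ZMod.intCast_zmod_eq_zero_iff_dvd]
    push_cast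
    exact h1
  push_cast at h2
  rw [sub_eq_zero] at h2
  exact h2.symm

lemma res_mul (h : Fr p ν ι ϖ) (hmν : m ≤ ν) (α β : GaussianInt) :
    ((red ι (α * β) : ℤ) : ZMod (p ^ m)) = ((red ι α : ℤ) : ZMod (p ^ m)) * ((red ι β : ℤ) : ZMod (p ^ m)) := by
  have h1 := (pow_dvd_pow (p : ℤ) hmν).trans (h.red_mul α β)
  have h2 : (((red ι α * red ι β - red ι (α * β) : ℤ)) : ZMod (p ^ m)) = 0 := by
    rw [ZMod.intCast_zmod_eq_zero_iff_dvd]
    push_cast
    exact h1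
  push_cast at h2
  rw [sub_eq_zero] at h2
  exact h2.symm

/-- equal `d`-th powers modulo `p ^ m` -/
theorem sep1 (h : Fr p ν ι ϖ) (hmν : m ≤ ν) {α β : GaussianInt}
    (hab : ((red ι α : ℤ) : ZMod (p ^ m)) ^ d = ((red ι β : ℤ) : ZMod (p ^ m)) ^ d) :
    α ^ d = β ^ d ∨ (p : ℝ) ^ m ≤ (‖(α : ℂ)‖ ^ d + ‖(β : ℂ)‖ ^ d) ^ 2 := by
  have h1 : (p : ℤ) ^ m ∣ red ι (α ^ d - β ^ d) := by
    have h2 : ((red ι (α ^ d - β ^ d) : ℤ) : ZMod (p ^ m)) = 0 := by
      rw [red_sub, Int.cast_sub, res_pow h hmν, res_pow h hmν, hab, sub_self]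
    rw [ZMod.intCast_zmod_eq_zero_iff_dvd] at h2
    exact_mod_cast h2
  obtain ⟨y, hy⟩ := h.dvd_of_red hmν h1
  by_cases hy0 : y = 0
  · left
    rw [hy0, mul_zero, sub_eq_zero] at hy
    exact hy
  · right
    have h2 : normSq ((α ^ d - β ^ d : GaussianInt) : ℂ) = (p : ℝ) ^ m * normSq (y : ℂ) := by
      rw [hy, map_mul GaussianInt.toComplex, map_mul normSq, h.normSq_pow m]
    have h3 := normSq_ge hy0
    have h4 : 1 ≤ normSq (y : ℂ) := by
      rw [normSq_int]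
      exact_mod_cast h3
    have h5 : ‖((α ^ d - β ^ d : GaussianInt) : ℂ)‖ ≤ ‖(α : ℂ)‖ ^ d + ‖(β : ℂ)‖ ^ d := by
      rw [map_sub GaussianInt.toComplex, map_pow GaussianInt.toComplex, map_pow GaussianInt.toComplex]
      refine (norm_sub_le _ _).trans ?_
      rw [norm_pow, norm_pow]
    have hp0 : (0 : ℝ) < (p : ℝ) ^ m := by
      have := h.pr.pos
      positivity
    calc (p : ℝ) ^ m ≤ (p : ℝ) ^ m * normSq (y : ℂ) := le_mul_of_one_le_right hp0.le h4
      _ = ‖((α ^ d - β ^ d : GaussianInt) : ℂ)‖ ^ 2 := by rw [← h2, Complex.normSq_eq_norm_sq]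
      _ ≤ _ := pow_le_pow_left₀ (norm_nonneg _) h5 2

lemma norm_eq_of_pow (hd : 1 ≤ d) {α β : GaussianInt} (h : α ^ d = β ^ d) : Nn α = Nn β := by
  have h1 : ‖(α : ℂ)‖ ^ d = ‖(β : ℂ)‖ ^ d := by
    rw [← norm_pow, ← norm_pow]
    rw [← map_pow GaussianInt.toComplex, ← map_pow GaussianInt.toComplex, h]
  have h2 := (pow_left_inj₀ (norm_nonneg (α : ℂ)) (norm_nonneg (β : ℂ)) (by omega)).1 h1
  have h3 : ((Nn α : ℤ) : ℝ) = ((Nn β : ℤ) : ℝ) := by rw [Nn_eq', Nn_eq', h2]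
  exact_mod_cast h3

/-- the larger of two elements with equal residues of the `d`-th powers is large -/
theorem far (h : Fr p ν ι ϖ) (hmν : m ≤ ν) (hd : 1 ≤ d) {α β : GaussianInt}
    (hab : ((red ι α : ℤ) : ZMod (p ^ m)) ^ d = ((red ι β : ℤ) : ZMod (p ^ m)) ^ d)
    (hle : Nn β ≤ Nn α) (hne : α ^ d ≠ β ^ d) {R : ℝ} (hR0 : 0 < R) (hR : 4 * R ^ d = (p : ℝ) ^ m) :
    R ≤ Nn α := by
  have h1 := (sep1 h hmν hab).resolve_left hne
  by_contra hcon
  push Not at hcon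
  have h2 : ‖(β : ℂ)‖ ^ d ≤ ‖(α : ℂ)‖ ^ d := by
    have h3 : ((Nn β : ℤ) : ℝ) ≤ ((Nn α : ℤ) : ℝ) := by exact_mod_cast hle
    rw [Nn_eq', Nn_eq'] at h3
    exact pow_le_pow_left₀ (norm_nonneg _) (le_of_sq_le_sq h3 (norm_nonneg _)) d
  have h3 : (‖(α : ℂ)‖ ^ d + ‖(β : ℂ)‖ ^ d) ^ 2 ≤ 4 * ((Nn α : ℤ) : ℝ) ^ d := by
    rw [Nn_eq', ← pow_mul, mul_comm 2 d, pow_mul]
    have h4 : 0 ≤ ‖(β : ℂ)‖ ^ d := by positivity
    nlinarith
  have h4 : ((Nn α : ℤ) : ℝ) ^ d < R ^ d :=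
    pow_lt_pow_left₀ hcon (by exact_mod_cast Nn_nonneg α) (by omega)
  linarith

lemma unit4 {u : GaussianInt} (h : Nn u = 1) : u ∈ ({1, -1, ⟨0, 1⟩, ⟨0, -1⟩} : Finset GaussianInt) := by
  unfold Nn at h
  have h1 : u.re ^ 2 ≤ 1 := by nlinarith [sq_nonneg u.im]
  have h2 : u.im ^ 2 ≤ 1 := by nlinarith [sq_nonneg u.re]
  have h3 : u.re ≤ 1 := by nlinarith
  have h4 : -1 ≤ u.re := by nlinarith
  have h5 : u.im ≤ 1 := by nlinarith
  have h6 : -1 ≤ u.im := by nlinarith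
  rw [mem_insert, mem_insert, mem_insert, mem_singleton]
  obtain ⟨a, b⟩ := u
  simp only at h h1 h2 h3 h4 h5 h6
  interval_cases a <;> interval_cases b <;> simp_all [Zsqrtd.ext_iff]

lemma Nn_mul (α β : GaussianInt) : Nn (α * β) = Nn α * Nn β := by
  unfold Nn
  rw [Zsqrtd.re_mul, Zsqrtd.im_mul]
  ring

/-- at most four elements with the same `d`-th power -/
lemma assoc_of_pow (hd : 1 ≤ d) {α β : GaussianInt} (h : α ^ d = β ^ d) (hβ : β ≠ 0) :
    ∃ u ∈ ({1, -1, ⟨0, 1⟩, ⟨0, -1⟩} : Finset GaussianInt), α = u * β := by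
  classical
  have h1 : β ∣ α := (IsIntegrallyClosed.pow_dvd_pow_iff (by omega)).1 (dvd_of_eq h.symm)
  obtain ⟨u, hu⟩ := h1
  have h2 := norm_eq_of_pow hd h
  have h3 : Nn u = 1 := by
    rw [hu, Nn_mul] at h2
    have h4 : Nn β ≠ 0 := by
      have := one_le_Nn hβ
      omega
    exact mul_left_cancel₀ h4 (by rw [h2, mul_one])
  exact ⟨u, unit4 h3, by rw [hu]; ring⟩

/-- a finite part of a sum -/
lemma split_sum {f : GaussianInt → ℂ} (hf : Summable f) (E : Finset GaussianInt) {g : GaussianInt → ℝ}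
    (hg : Summable g) (hg0 : ∀ α, 0 ≤ g α) (h : ∀ α, α ∉ E → ‖f α‖ ≤ g α) :
    ‖∑' α, f α - ∑ α ∈ E, f α‖ ≤ ∑' α, g α := by
  classical
  have h1 : HasSum (fun α => if α ∈ E then f α else 0) (∑ α ∈ E, f α) := by
    have : HasSum (fun α => if α ∈ E then f α else 0) (∑ b ∈ E, if b ∈ E then f b else 0) :=
      hasSum_sum_of_ne_finset_zero (fun b hb => if_neg hb)
    have e : ∑ b ∈ E, (if b ∈ E then f b else 0) = ∑ b ∈ E, f b := sum_congr rfl fun b hb => if_pos hb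
    rwa [e] at this
  have h2 := hf.hasSum.sub h1
  rw [← h2.tsum_eq]
  have h3 : ∀ α, ‖f α - (if α ∈ E then f α else 0)‖ ≤ g α := by
    intro α
    split_ifs with hα
    · rw [sub_self, norm_zero]; exact hg0 α
    · rw [sub_zero]; exact h α hα
  exact tsum_of_norm_bounded hg.hasSum h3

/-- the number of residues with given `d`-th power -/
lemma card_res [NeZero (p ^ m)] (hp : p.Prime) (hp2 : p ≠ 2) (hd : 1 ≤ d) {b : ZMod (p ^ m)} (hb : IsUnit b) :
    #((range (p ^ m)).filter fun a : ℕ => (a : ZMod (p ^ m)) ^ d = b) ≤ d := by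
  classical
  haveI : IsCyclic (ZMod (p ^ m))ˣ := ZMod.isCyclic_units_of_prime_pow p hp hp2 m
  rcases ((range (p ^ m)).filter fun a : ℕ => (a : ZMod (p ^ m)) ^ d = b).eq_empty_or_nonempty with h0 | ⟨a0, ha0⟩
  · rw [h0]; simp
  have hunit : ∀ a : ℕ, (a : ZMod (p ^ m)) ^ d = b → IsUnit (a : ZMod (p ^ m)) := by
    intro a ha
    exact (isUnit_pow_iff (by omega : d ≠ 0)).1 (ha ▸ hb)
  have ha0' := (mem_filter.1 ha0).2
  obtain ⟨u0, hu0⟩ := hunit a0 ha0'
  refine le_trans ?_ (IsCyclic.card_pow_eq_one_le (α := (ZMod (p ^ m))ˣ) (n := d) (by omega))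
  refine card_le_card_of_injOn (fun a : ℕ => if h : IsUnit (a : ZMod (p ^ m)) then h.unit * u0⁻¹ else 1) ?_ ?_
  · intro a ha
    have ha' := (mem_filter.1 ha).2
    have hu := hunit a ha'
    simp only [coe_filter, mem_univ, true_and, Set.mem_ofPred_eq]
    rw [dif_pos hu, mul_pow, inv_pow]
    rw [mul_inv_eq_one]
    ext
    push_cast
    rw [IsUnit.unit_spec, hu0, ha', ha0']
  · intro a ha a' ha' h
    have hu := hunit a (mem_filter.1 ha).2
    have hu' := hunit a' (mem_filter.1 ha').2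
    simp only at h
    rw [dif_pos hu, dif_pos hu'] at h
    have h1 := mul_right_cancel h
    have h2 : (a : ZMod (p ^ m)) = (a' : ZMod (p ^ m)) := by
      have := congrArg (fun u : (ZMod (p ^ m))ˣ => (u : ZMod (p ^ m))) h1
      simpa using this
    rw [ZMod.natCast_eq_natCast_iff'] at h2
    have h3 := mem_range.1 (mem_filter.1 ha).1
    have h4 := mem_range.1 (mem_filter.1 ha').1
    rwa [Nat.mod_eq_of_lt h3, Nat.mod_eq_of_lt h4] at h2

open scoped Classical in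
/-- the terms of the tail -/
noncomputable def tl (p m d : ℕ) (ι : ℤ) (b : ZMod (p ^ m)) (R ρ : ℝ) (α : GaussianInt) : ℝ :=
  if ((red ι α : ℤ) : ZMod (p ^ m)) ^ d = b ∧ R ≤ Nn α then gw (1 / ρ) 0 α else 0

/-- the bound for the tail -/
noncomputable def TB (p m d : ℕ) (R ρ : ℝ) : ℝ :=
  Real.exp (-(Real.pi * ρ * R / 2)) * (d * (1 + CG * (2 / (ρ * (p : ℝ) ^ m))))

lemma tl_nonneg (b : ZMod (p ^ m)) (R ρ : ℝ) (α : GaussianInt) : 0 ≤ tl p m d ι b R ρ α := by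
  unfold tl
  split_ifs
  · exact gw_nonneg _ _ _
  · exact le_rfl

lemma tl_summable (b : ZMod (p ^ m)) (R : ℝ) {ρ : ℝ} (hρ : 0 < ρ) : Summable (tl p m d ι b R ρ) := by
  refine Summable.of_nonneg_of_le (fun α => tl_nonneg b R ρ α) (fun α => ?_)
    (gw_summable (X := 1 / ρ) (by positivity) 0)
  unfold tl
  split_ifs
  · exact le_rfl
  · exact gw_nonneg _ _ _

theorem tail_le [NeZero (p ^ m)] (h : Fr p ν ι ϖ) (hmν : m ≤ ν) (hd : 1 ≤ d) {b : ZMod (p ^ m)}
    (hb : IsUnit b) {R ρ : ℝ} (hR : 0 ≤ R) (hρ : 0 < ρ) : ∑' α, tl p m d ι b R ρ α ≤ TB p m d R ρ := by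
  classical
  have hp := h.pr
  have hp0 : (0 : ℝ) < (p : ℝ) ^ m := by
    have := hp.pos
    positivity
  have hX : 0 < 2 / ρ := by positivity
  obtain ⟨g, hg⟩ : ∃ g : GaussianInt → ℝ, g = fun α =>
      if ((red ι α : ℤ) : ZMod (p ^ m)) ^ d = b then gw (2 / ρ) 0 α else 0 := ⟨_, rfl⟩
  have hgs : Summable g := by
    refine Summable.of_nonneg_of_le (fun α => ?_) (fun α => ?_) (gw_summable hX 0)
    · rw [hg]; simp only; split_ifs
      · exact gw_nonneg _ _ _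
      · exact le_rfl
    · rw [hg]; simp only; split_ifs
      · exact le_rfl
      · exact gw_nonneg _ _ _
  have h1 : ∀ α, tl p m d ι b R ρ α ≤ Real.exp (-(Real.pi * ρ * R / 2)) * g α := by
    intro α
    unfold tl
    rw [hg]
    simp only
    split_ifs with h1 h2 h2
    · unfold gw
      rw [← Real.exp_add, Real.exp_le_exp, sub_zero, ← Nn_eq]
      have h3 := h1.2
      have h4 : Real.pi * ρ * R ≤ Real.pi * ρ * (Nn α : ℤ) := by gcongr
      have e1 : Real.pi * ((Nn α : ℤ) : ℝ) / (1 / ρ) = Real.pi * ρ * (Nn α : ℤ) := by field_simp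
      have e2 : Real.pi * ((Nn α : ℤ) : ℝ) / (2 / ρ) = Real.pi * ρ * (Nn α : ℤ) / 2 := by field_simp
      rw [e1, e2]
      linarith
    · exact absurd h1.1 h2
    · have := gw_nonneg (2 / ρ) 0 α
      positivity
    · simp
  have h2 : ∑' α, tl p m d ι b R ρ α ≤ Real.exp (-(Real.pi * ρ * R / 2)) * ∑' α, g α := by
    rw [← tsum_mul_left]
    exact (tl_summable b R hρ).tsum_le_tsum h1 (hgs.mul_left _)
  refine h2.trans ?_
  unfold TB
  refine mul_le_mul_of_nonneg_left ?_ (Real.exp_pos _).le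
  -- classes
  have h3 : ∑' α, g α = ∑ a ∈ range (p ^ m), ∑' x, g ((a : GaussianInt) + ϖ ^ m * x) := by
    have k1 : Summable fun x : Finset.range (p ^ m) × GaussianInt => g (h.dec hmν x) :=
      (h.dec hmν).summable_iff.2 hgs
    rw [← (h.dec hmν).tsum_eq, k1.tsum_prod, tsum_fintype]
    exact Finset.sum_coe_sort (Finset.range (p ^ m))
      (fun a : ℕ => ∑' x, g ((a : GaussianInt) + ϖ ^ m * x))
  rw [h3]
  have hres : ∀ (a : ℕ) (x : GaussianInt), ((red ι ((a : GaussianInt) + ϖ ^ m * x) : ℤ) : ZMod (p ^ m)) = a := by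
    intro a x
    obtain ⟨k, hk⟩ := h.dvd_red_mul hmν x
    rw [red_add, hk]
    have e1 : red ι ((a : ℕ) : GaussianInt) = a := by
      have := red_int ι a
      simpa using this
    rw [e1]
    push_cast
    have h0 : ((p ^ m : ℕ) : ZMod (p ^ m)) = 0 := ZMod.natCast_self _
    push_cast at h0
    rw [h0, zero_mul, add_zero]
  have h4 : ∀ a ∈ range (p ^ m), ∑' x, g ((a : GaussianInt) + ϖ ^ m * x) ≤
      if (a : ZMod (p ^ m)) ^ d = b then 1 + CG * (2 / (ρ * (p : ℝ) ^ m)) else 0 := by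
    intro a _
    rw [hg]
    simp only [hres]
    split_ifs with hab
    · have hϖ : ((ϖ ^ m : GaussianInt) : ℂ) ≠ 0 := by
        have := h.normSq_pow m
        intro h0
        rw [h0, map_zero] at this
        exact hp0.ne this
      have e1 : ∀ x : GaussianInt, gw (2 / ρ) 0 ((a : GaussianInt) + ϖ ^ m * x) =
          gw (2 / (ρ * (p : ℝ) ^ m)) (-((a : ℂ) / ((ϖ ^ m : GaussianInt) : ℂ))) x := by
        intro x
        unfold gw
        congr 2
        have e2 : (((a : GaussianInt) + ϖ ^ m * x : GaussianInt) : ℂ) - 0 =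
            ((ϖ ^ m : GaussianInt) : ℂ) * ((x : ℂ) - -((a : ℂ) / ((ϖ ^ m : GaussianInt) : ℂ))) := by
          rw [sub_neg_eq_add, mul_add, mul_div_cancel₀ _ hϖ, map_add GaussianInt.toComplex,
            map_mul GaussianInt.toComplex, map_natCast GaussianInt.toComplex]
          ring
        rw [e2, map_mul, h.normSq_pow]
        field_simp
      simp_rw [e1]
      refine (gw_sum_le (by positivity) _).trans (GG_le (by positivity))
    · simp
  refine (sum_le_sum h4).trans ?_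
  rw [← sum_filter, sum_const, nsmul_eq_mul]
  have h5 := card_res (p := p) (m := m) hp h.odd hd hb
  have hCG := CG_one
  have h6 : (0 : ℝ) ≤ 1 + CG * (2 / (ρ * (p : ℝ) ^ m)) := by positivity
  exact mul_le_mul_of_nonneg_right (by exact_mod_cast h5) h6

end Run7.h343.GV
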